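import Pool.Agent.H33.Exc.Main

/-!
# Unsplittable combinations of letters

For coefficients `c g` of the edges `g` from `I` to `J` the excess of `y` over `J` is the
combination of the total shares of the vertices that are led to `y` by `g`, minus the corresponding
multiple of the share of `y`. The kernel classes of a colouring have excess zero.
-/

set_option autoImplicit false
set_option linter.unusedSectionVars false
set_option linter.deprecated false

namespace Pool.Agent.H33.Exc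

open Pool.Agent.H75.Bunchy Pool.Agent.H26.Bunchy Pool.Agent.H35.Sel Pool.Agent.H33.TP
open scoped Classical

noncomputable local instance (G : Graph) : Fintype G.V := Fintype.ofFinite _
noncomputable local instance (G : Graph) : Fintype G.E := Fintype.ofFinite _

/-- The excess of the vertex `y` over `J` for coefficients `c g` of the edges `g` of `H` from `I`
to `J`: the sum over these edges of `c g` times the difference of the total share (for `μ`) of the
vertices `x` over `I` with `x · g = y` and the share (for `μ'`) of `y`. -/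
noncomputable def excess {G H : Graph} (Φ : RightResolver G H) (I J : H.V) (c : H.E → ℝ)
    (μ μ' : G.V → ℝ) (y : G.V) : ℝ :=
  ∑ᶠ g ∈ {g | H.src g = I ∧ H.tgt g = J},
    c g * ((∑ᶠ x ∈ {x | Φ.v x = I ∧ Φ.act x g = y}, share Φ.v μ x) - share Φ.v μ' y)

variable {G H : Graph}

lemma sum_excess (Φ : RightResolver G H) (I J : H.V) (c : H.E → ℝ) (μ μ' : G.V → ℝ)
    (X : Set G.V) :
    ∑ y ∈ Finset.univ.filter (fun y => Φ.v y = J ∧ y ∈ X), excess Φ I J c μ μ' y =
      ∑ g ∈ Finset.univ.filter (fun g => H.src g = I ∧ H.tgt g = J),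
        c g * ((∑ᶠ x ∈ {x | Φ.v x = I ∧ Φ.act x g ∈ X}, share Φ.v μ x) -
          ∑ᶠ y ∈ {y | Φ.v y = J ∧ y ∈ X}, share Φ.v μ' y) := by
  unfold excess
  simp only [fsum (fun g : H.E => H.src g = I ∧ H.tgt g = J)]
  rw [Finset.sum_comm]
  refine Finset.sum_congr rfl fun g hg => ?_
  rw [Finset.mem_filter] at hg
  rw [← Finset.mul_sum, Finset.sum_sub_distrib,
    fib_sum (s := fun x => Φ.act x g) (I := I) (J := J) (fun x hx => by
      rw [← hg.2.2]; exact Φ.act_typed x g (by rw [hx]; exact hg.2.1)) X (share Φ.v μ),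
    fsum (fun y : G.V => Φ.v y = J ∧ y ∈ X)]

/-- the kernel classes of words of minimal rank have excess zero -/
lemma class_zero (Φ : RightResolver G H) (hG : G.StronglyConnected) {I J : H.V} {w : List H.E}
    (hw : Valid H.src H.tgt J w) (hr : (img Φ.v Φ.act J w).ncard = rank H.src H.tgt Φ.v Φ.act)
    {pr pr' : H.V → H.V → ℝ} {μ μ' : G.V → ℝ} (hf : FairWeights Φ.v pr μ)
    (hf' : FairWeights Φ.v pr' μ') {y₀ : G.V} (hy₀ : Φ.v y₀ = J) (c : H.E → ℝ) :
    ∑ y ∈ Finset.univ.filter (fun y => Φ.v y = J ∧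
      y ∈ {y | run Φ.act y w = run Φ.act y₀ w}), excess Φ I J c μ μ' y = 0 := by
  rw [sum_excess]
  refine Finset.sum_eq_zero fun g hg => ?_
  rw [Finset.mem_filter] at hg
  obtain ⟨-, rfl, rfl⟩ := hg
  rw [class_eq Φ hG hw hr hf hf' hy₀, sub_self, mul_zero]

/-- Some combination of the letters of the bundle `(I, J)` with coefficients that are not all equal
has, for some fair weights, an unsplittable excess: whenever a balanced labelling `l` over `J`
(with parameter `ρ` such that all fibres have balanced labellings) has a balanced labelling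
`l (x · g)` over `I` as preimage under every letter `g` of the bundle, then for every label `i` the
excess vanishes at all vertices over `J` with the label `i`, or at all the other ones. -/
def Comb {G H : Graph} (Φ : RightResolver G H) (I J : H.V) : Prop :=
  ∃ (c : H.E → ℝ) (pr pr' : H.V → H.V → ℝ) (μ μ' : G.V → ℝ),
    (∃ g g', H.src g = I ∧ H.tgt g = J ∧ H.src g' = I ∧ H.tgt g' = J ∧ c g ≠ c g') ∧
    FairWeights Φ.v pr μ ∧ FairWeights Φ.v pr' μ' ∧
    ∀ (ρ : ℕ) (l : G.V → ℕ), Level Φ.v ρ → Balanced Φ.v J ρ l →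
      (∀ g, H.src g = I → H.tgt g = J → Balanced Φ.v I ρ (fun x => l (Φ.act x g))) →
      ∀ i, (∀ y, Φ.v y = J → l y = i → excess Φ I J c μ μ' y = 0) ∨
        (∀ y, Φ.v y = J → l y ≠ i → excess Φ I J c μ μ' y = 0)

/-- the excess vanishes -/
def CombZero {G H : Graph} (Φ : RightResolver G H) (I J : H.V) : Prop :=
  ∃ (c : H.E → ℝ) (pr pr' : H.V → H.V → ℝ) (μ μ' : G.V → ℝ),
    (∃ g g', H.src g = I ∧ H.tgt g = J ∧ H.src g' = I ∧ H.tgt g' = J ∧ c g ≠ c g') ∧
    FairWeights Φ.v pr μ ∧ FairWeights Φ.v pr' μ' ∧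
    ∀ y, Φ.v y = J → excess Φ I J c μ μ' y = 0

/-- If a colouring without stable pair has an unsplittable excess, then the excess vanishes. -/
lemma Comb.zero (Φ : RightResolver G H) (hG : G.StronglyConnected) {I J : H.V}
    (h : Comb Φ I J) (hno : NoStable H.src H.tgt Φ.v Φ.act) : CombZero Φ I J := by
  obtain ⟨c, pr, pr', μ, μ', hc, hf, hf', h⟩ := h
  refine ⟨c, pr, pr', μ, μ', hc, hf, hf', fun y₁ hy₁ => ?_⟩
  by_contra hne
  obtain ⟨w, hw, hr⟩ := exists_rank Φ.act_typed (Φ.conn hG) y₁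
  rw [hy₁] at hw hr
  have h1 := class_zero Φ hG (I := I) hw hr hf hf' hy₁ c
  obtain ⟨y₂, hy₂, hy₁₂, hne₂⟩ : ∃ y₂, Φ.v y₂ = J ∧ y₂ ≠ y₁ ∧ excess Φ I J c μ μ' y₂ ≠ 0 := by
    by_contra hcon
    push Not at hcon
    rw [Finset.sum_eq_single y₁ (fun y hy hyy => by
      rw [Finset.mem_filter] at hy
      exact hcon y hy.2.1 hyy) (fun hy => by
      exact absurd (Finset.mem_filter.2 ⟨Finset.mem_univ _, hy₁, rfl⟩) hy)] at h1
    exact hne h1
  have hns : ¬ Stable H.src H.tgt Φ.v Φ.act y₁ y₂ := fun hst => hy₁₂ (hno _ _ hst).symm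
  obtain ⟨u, hu, hru, hsep⟩ := exists_sep Φ.act_typed (Φ.conn hG) (hy₁.trans hy₂.symm) hns
  have h2 := two_le_of_sep (s := H.src) (t := H.tgt) (hy₁.trans hy₂.symm) hru hsep
  rw [hy₁] at hu hru
  have hlev : Level Φ.v (rank H.src H.tgt Φ.v Φ.act) := by
    refine ⟨h2, fun K => ?_⟩
    obtain ⟨q, hq⟩ := Φ.v_surj K
    obtain ⟨w, hw, hrw⟩ := exists_rank Φ.act_typed (Φ.conn hG) q
    rw [hq] at hw hrw
    exact ⟨_, balanced_word Φ hG hw hrw⟩
  rcases h _ _ hlev (balanced_word Φ hG hu hru) (fun g hgI hgJ => by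
      obtain ⟨p, hp⟩ := Φ.v_surj I
      rw [← hgJ] at hu hru
      have h3 := balanced_word Φ hG (J := H.src g) (u := g :: u) ⟨rfl, hu⟩
        (rank_cons Φ.act_typed (p := p) (by rw [hgI, hp]) hu hru)
      rw [hgI] at h3
      exact h3) (code G (run Φ.act y₁ u)) with h3 | h3
  · exact hne (h3 y₁ hy₁ rfl)
  · exact hne₂ (h3 y₂ hy₂ (fun hh => hsep (code_inj.1 hh).symm))

/-- the excess in the quotient -/
lemma excess_desc (Φ Φ' : RightResolver G H) (hv : Φ'.v = Φ.v) {I J : H.V} (c : H.E → ℝ)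
    (μ μ' : G.V → ℝ) (hact : ∀ x g, Φ.v x = I → H.src g = I → H.tgt g = J →
      Φ'.proj.v (Φ'.act x g) = Φ'.proj.v (Φ.act x g)) {q : Φ'.quot.V} (hq : Φ'.desc.v q = J) :
    excess Φ'.desc I J c (push Φ'.proj μ) (push Φ'.proj μ') q =
      ∑ y ∈ Finset.univ.filter (fun y => Φ.v y = J ∧ y ∈ {y | Φ'.proj.v y = q}),
        excess Φ I J c μ μ' y := by
  have hpv : ∀ p, Φ'.desc.v (Φ'.proj.v p) = Φ.v p := fun p => by rw [Φ'.desc_proj_v, hv]
  rw [sum_excess]
  unfold excess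
  rw [fsum (fun g : H.E => H.src g = I ∧ H.tgt g = J)]
  refine Finset.sum_congr rfl fun g hg => ?_
  rw [Finset.mem_filter] at hg
  obtain ⟨-, hgI, hgJ⟩ := hg
  congr 1
  have h1 := sum_share_push Φ'.proj hpv μ I (fun p => Φ'.desc.act p g = q)
  have hset : {x | Φ.v x = I ∧ Φ'.desc.act (Φ'.proj.v x) g = q} =
      {x | Φ.v x = I ∧ Φ.act x g ∈ {y | Φ'.proj.v y = q}} := by
    ext x
    simp only [Set.mem_setOf_eq]
    constructor
    · rintro ⟨h2, h3⟩
      rw [desc_act Φ' (by rw [hv, h2, hgI]), hact x g h2 hgI hgJ] at h3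
      exact ⟨h2, h3⟩
    · rintro ⟨h2, h3⟩
      refine ⟨h2, ?_⟩
      rw [desc_act Φ' (by rw [hv, h2, hgI]), hact x g h2 hgI hgJ]
      exact h3
  have h2 := sum_share_push Φ'.proj hpv μ' J (fun p => p = q)
  have h3 : ∑ᶠ c ∈ {c | Φ'.desc.v c = J ∧ c = q}, share Φ'.desc.v (push Φ'.proj μ') c =
      share Φ'.desc.v (push Φ'.proj μ') q := by
    have hset' : {c | Φ'.desc.v c = J ∧ c = q} = {q} := by
      ext c
      simp only [Set.mem_setOf_eq, Set.mem_singleton_iff]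
      constructor
      · exact fun h => h.2
      · rintro rfl; exact ⟨hq, rfl⟩
    rw [hset', finsum_mem_singleton]
  rw [h1, hset, ← h3, h2]
  rfl

lemma CombZero.desc (Φ Φ' : RightResolver G H) (hv : Φ'.v = Φ.v) {I J : H.V}
    (h : CombZero Φ I J) (hact : ∀ x g, Φ.v x = I → H.src g = I → H.tgt g = J →
      Φ'.proj.v (Φ'.act x g) = Φ'.proj.v (Φ.act x g)) : CombZero Φ'.desc I J := by
  obtain ⟨c, pr, pr', μ, μ', hc, hf, hf', h⟩ := h
  have hpv : ∀ p, Φ'.desc.v (Φ'.proj.v p) = Φ.v p := fun p => by rw [Φ'.desc_proj_v, hv]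
  refine ⟨c, pr, pr', push Φ'.proj μ, push Φ'.proj μ', hc, fair_push Φ'.proj hpv hf,
    fair_push Φ'.proj hpv hf', fun q hq => ?_⟩
  rw [excess_desc Φ Φ' hv c μ μ' hact hq]
  refine Finset.sum_eq_zero fun y hy => ?_
  rw [Finset.mem_filter] at hy
  exact h y hy.2.1

lemma balanced_congr {v : G.V → H.V} {K : H.V} {ρ : ℕ} {l l' : G.V → ℕ}
    (h : ∀ x, v x = K → l x = l' x) (hl : Balanced v K ρ l) : Balanced v K ρ l' := by
  intro pr μ hf x hx
  have h1 := hl pr μ hf x hx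
  have hset : {y | v y = K ∧ l' y = l' x} = {y | v y = K ∧ l y = l x} := by
    ext y
    simp only [Set.mem_setOf_eq]
    constructor
    · rintro ⟨h2, h3⟩
      exact ⟨h2, by rw [h y h2, h x hx]; exact h3⟩
    · rintro ⟨h2, h3⟩
      exact ⟨h2, by rw [← h y h2, ← h x hx]; exact h3⟩
  rw [hset]
  exact h1

lemma Comb.desc (Φ : RightResolver G H) {I J : H.V} (h : Comb Φ I J) : Comb Φ.desc I J := by
  obtain ⟨c, pr, pr', μ, μ', hc, hf, hf', h⟩ := h
  have hpv : ∀ p, Φ.desc.v (Φ.proj.v p) = Φ.v p := fun p => Φ.desc_proj_v p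
  refine ⟨c, pr, pr', push Φ.proj μ, push Φ.proj μ', hc, fair_push Φ.proj hpv hf,
    fair_push Φ.proj hpv hf', fun ρ l hρ hl hg i => ?_⟩
  have key : ∀ q, Φ.desc.v q = J → (∀ y, Φ.proj.v y = q → Φ.v y = J →
      excess Φ I J c μ μ' y = 0) →
      excess Φ.desc I J c (push Φ.proj μ) (push Φ.proj μ') q = 0 := by
    intro q hq hy
    rw [excess_desc Φ Φ rfl c μ μ' (fun _ _ _ _ _ => rfl) hq]
    refine Finset.sum_eq_zero fun y hy' => ?_
    rw [Finset.mem_filter] at hy'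
    exact hy y hy'.2.2 hy'.2.1
  rcases h ρ (fun x => l (Φ.proj.v x)) (hρ.pull Φ.proj hpv) (hl.pull Φ.proj hpv)
    (fun g hgI hgJ => balanced_congr (fun x hx => by
        show l (Φ.desc.act (Φ.proj.v x) g) = l (Φ.proj.v (Φ.act x g))
        rw [desc_act Φ (by rw [hgI, hx])]) ((hg g hgI hgJ).pull Φ.proj hpv)) i with h1 | h1
  · left
    intro q hq hqi
    exact key q hq fun y hy hyJ => h1 y hyJ (by simp only [hy]; exact hqi)
  · right
    intro q hq hqi
    exact key q hq fun y hy hyJ => h1 y hyJ (by simp only [hy]; exact hqi)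

lemma sum_share_fibre' {v : G.V → H.V} {μ : G.V → ℝ} (hμ : ∀ x, 0 < μ x) (p : G.V) :
    ∑ q ∈ Finset.univ.filter (fun q => v q = v p), share v μ q = 1 :=
  sum_share_fibre hμ p

/-- two labellings with shares `1 / ρ`, one of which is the pull-back of the other one, have the
same labels -/
lemma exists_label {v : G.V → H.V} {I J : H.V} {s : G.V → G.V} (hs : ∀ x, v x = I → v (s x) = J)
    {ρ : ℕ} {l : G.V → ℕ} (hl : Balanced v J ρ l) (hl' : Balanced v I ρ (fun x => l (s x)))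
    {pr : H.V → H.V → ℝ} {μ : G.V → ℝ} (hf : FairWeights v pr μ) {p : G.V} (hp : v p = I)
    {y₀ : G.V} (hy₀ : v y₀ = J) : ∃ x, v x = I ∧ l (s x) = l y₀ := by
  by_contra hcon
  push Not at hcon
  -- the labels
  set L := (Finset.univ.filter (fun y => v y = J)).image l with hL
  set L' := (Finset.univ.filter (fun x => v x = I)).image (fun x => l (s x)) with hL'
  have hsub : L' ⊆ L.erase (l y₀) := by
    intro i hi
    rw [hL', Finset.mem_image] at hi
    obtain ⟨x, hx, rfl⟩ := hi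
    rw [Finset.mem_filter] at hx
    refine Finset.mem_erase.2 ⟨hcon x hx.2, Finset.mem_image.2 ⟨s x, ?_, rfl⟩⟩
    exact Finset.mem_filter.2 ⟨Finset.mem_univ _, hs x hx.2⟩
  have hmem : l y₀ ∈ L := Finset.mem_image.2 ⟨y₀, Finset.mem_filter.2 ⟨Finset.mem_univ _, hy₀⟩, rfl⟩
  have hcard : L'.card < L.card := by
    have h1 := Finset.card_le_card hsub
    rw [Finset.card_erase_of_mem hmem] at h1
    have h2 := Finset.card_pos.2 ⟨_, hmem⟩
    omega
  have hJ : (L.card : ℝ) = ρ := by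
    have h1 : ∑ i ∈ L, (ρ : ℝ) * ∑ y ∈ (Finset.univ.filter (fun y => v y = J)).filter
        (fun y => l y = i), share v μ y = ρ := by
      rw [← Finset.mul_sum, Finset.sum_fiberwise_of_maps_to (fun y hy =>
        Finset.mem_image_of_mem l hy)]
      have h2 := sum_share_fibre (v := v) hf.mu_pos y₀
      rw [hy₀] at h2
      rw [h2, mul_one]
    rw [Finset.sum_congr rfl (g := fun _ => (1 : ℝ)) (fun i hi => by
      rw [hL, Finset.mem_image] at hi
      obtain ⟨y, hy, rfl⟩ := hi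
      have h3 := hl pr μ hf y (Finset.mem_filter.1 hy).2
      rw [fsum] at h3
      rw [Finset.filter_filter]
      exact h3)] at h1
    simpa using h1
  have hI : (L'.card : ℝ) = ρ := by
    have h1 : ∑ i ∈ L', (ρ : ℝ) * ∑ y ∈ (Finset.univ.filter (fun y => v y = I)).filter
        (fun y => l (s y) = i), share v μ y = ρ := by
      rw [← Finset.mul_sum, Finset.sum_fiberwise_of_maps_to (fun y hy =>
        Finset.mem_image_of_mem (fun x => l (s x)) hy)]
      have h2 := sum_share_fibre (v := v) hf.mu_pos p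
      rw [hp] at h2
      rw [h2, mul_one]
    rw [Finset.sum_congr rfl (g := fun _ => (1 : ℝ)) (fun i hi => by
      rw [hL', Finset.mem_image] at hi
      obtain ⟨y, hy, rfl⟩ := hi
      have h3 := hl' pr μ hf y (Finset.mem_filter.1 hy).2
      rw [fsum] at h3
      rw [Finset.filter_filter]
      exact h3)] at h1
    simpa using h1
  have : (L'.card : ℝ) < L.card := by exact_mod_cast hcard
  rw [hI, hJ] at this
  exact lt_irrefl _ this

/-- It suffices that for every set of vertices over `J` with total excess zero the excess vanishes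
on the set or outside the set. -/
theorem comb_of_sets (Φ : RightResolver G H) {I J : H.V} {c : H.E → ℝ}
    (hc : ∃ g g', H.src g = I ∧ H.tgt g = J ∧ H.src g' = I ∧ H.tgt g' = J ∧ c g ≠ c g')
    {pr pr' : H.V → H.V → ℝ} {μ μ' : G.V → ℝ} (hf : FairWeights Φ.v pr μ)
    (hf' : FairWeights Φ.v pr' μ')
    (h : ∀ X : Set G.V, ∑ᶠ y ∈ {y | Φ.v y = J ∧ y ∈ X}, excess Φ I J c μ μ' y = 0 →
      (∀ y ∈ X, Φ.v y = J → excess Φ I J c μ μ' y = 0) ∨
      (∀ y, y ∉ X → Φ.v y = J → excess Φ I J c μ μ' y = 0)) : Comb Φ I J := by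
  refine ⟨c, pr, pr', μ, μ', hc, hf, hf', fun ρ l hρ hl hg i => ?_⟩
  by_cases hi : ∃ y₀, Φ.v y₀ = J ∧ l y₀ = i
  swap
  · exact Or.inl fun y hy hyi => absurd ⟨y, hy, hyi⟩ hi
  obtain ⟨y₀, hy₀, rfl⟩ := hi
  have hρ' : (ρ : ℝ) ≠ 0 := by
    have : (2 : ℝ) ≤ ρ := by exact_mod_cast hρ.1
    positivity
  have hsum : ∑ᶠ y ∈ {y | Φ.v y = J ∧ y ∈ {y | l y = l y₀}}, excess Φ I J c μ μ' y = 0 := by
    rw [fsum]
    refine Eq.trans ?_ ((sum_excess Φ I J c μ μ' {y | l y = l y₀}).trans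
      (Finset.sum_eq_zero fun g hg' => ?_))
    · refine Finset.sum_congr ?_ fun _ _ => rfl
      ext y
      simp only [Finset.mem_filter]
    rw [Finset.mem_filter] at hg'
    obtain ⟨-, hgI, hgJ⟩ := hg'
    have hs : ∀ x, Φ.v x = I → Φ.v (Φ.act x g) = J := fun x hx => by
      rw [← hgJ]; exact Φ.act_typed x g (by rw [hx]; exact hgI)
    obtain ⟨p, hp⟩ := Φ.v_surj I
    obtain ⟨x, hx, hxl⟩ := exists_label hs hl (hg g hgI hgJ) hf hp hy₀
    have h1 := hg g hgI hgJ pr μ hf x hx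
    have h2 := hl pr' μ' hf' y₀ hy₀
    simp only [hxl] at h1
    have h3 : (∑ᶠ x ∈ {x | Φ.v x = I ∧ Φ.act x g ∈ {y | l y = l y₀}}, share Φ.v μ x) =
        ∑ᶠ y ∈ {y | Φ.v y = J ∧ y ∈ {y | l y = l y₀}}, share Φ.v μ' y :=
      mul_left_cancel₀ hρ' (h1.trans h2.symm)
    rw [h3, sub_self, mul_zero]
  rcases h _ hsum with h1 | h1
  · exact Or.inl fun y hy hyi => h1 y hyi hy
  · exact Or.inr fun y hy hyi => h1 y hyi hy

/-- two letters with different coefficients and different ends -/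
lemma exists_two {c : H.E → ℝ} {Φ : RightResolver G H} {I J : H.V}
    (hc : ∃ g g', H.src g = I ∧ H.tgt g = J ∧ H.src g' = I ∧ H.tgt g' = J ∧ c g ≠ c g')
    {p₀ : G.V} {g g' : H.E} (hg : H.src g = I ∧ H.tgt g = J) (hg' : H.src g' = I ∧ H.tgt g' = J)
    (hne : Φ.act p₀ g ≠ Φ.act p₀ g') :
    ∃ g₁ g₂, H.src g₁ = I ∧ H.tgt g₁ = J ∧ H.src g₂ = I ∧ H.tgt g₂ = J ∧ c g₁ ≠ c g₂ ∧
      Φ.act p₀ g₁ ≠ Φ.act p₀ g₂ := by
  obtain ⟨k, k', h1, h2, h3, h4, hk⟩ := hc
  by_cases hkk : Φ.act p₀ k = Φ.act p₀ k'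
  · obtain ⟨f, hf1, hf2, hf⟩ : ∃ f, H.src f = I ∧ H.tgt f = J ∧ Φ.act p₀ f ≠ Φ.act p₀ k := by
      by_cases h : Φ.act p₀ g = Φ.act p₀ k
      · exact ⟨g', hg'.1, hg'.2, fun h' => hne (h.trans h'.symm)⟩
      · exact ⟨g, hg.1, hg.2, h⟩
    by_cases hcf : c f = c k
    · exact ⟨f, k', hf1, hf2, h3, h4, fun h => hk (hcf.symm.trans h), fun h => hf (h.trans hkk.symm)⟩
    · exact ⟨f, k, hf1, hf2, h1, h2, hcf, hf⟩
  · exact ⟨k, k', h1, h2, h3, h4, hk, hkk⟩

/-- the ends of the flipped pair are stable -/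
lemma stable_flip_comb (Φ : RightResolver G H) (hG : G.StronglyConnected) {g₁ g₂ : H.E}
    {p₀ : G.V} (hp : Φ.v p₀ = H.src g₁) (hs : H.src g₂ = H.src g₁) (ht : H.tgt g₂ = H.tgt g₁)
    {c : H.E → ℝ} {pr pr' : H.V → H.V → ℝ} {μ μ' : G.V → ℝ} (hf : FairWeights Φ.v pr μ)
    (hf' : FairWeights Φ.v pr' μ') (hc : c g₁ ≠ c g₂)
    (hz : ∀ y, Φ.v y = H.tgt g₁ → excess Φ (H.src g₁) (H.tgt g₁) c μ μ' y = 0)
    (hne : Φ.act p₀ g₁ ≠ Φ.act p₀ g₂) (Φ' : RightResolver G H) (hv : Φ'.v = Φ.v)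
    (hact : Φ'.act = flip g₁ g₂ {p₀} Φ.act) :
    Stable H.src H.tgt Φ'.v Φ'.act (Φ.act p₀ g₁) (Φ.act p₀ g₂) := by
  by_contra hns
  have h12 : g₁ ≠ g₂ := fun h => hne (by rw [h])
  set X := Φ.act p₀ g₁ with hX
  set Y := Φ.act p₀ g₂ with hY
  have hvX : Φ'.v X = H.tgt g₁ := by rw [hv]; exact Φ.act_typed p₀ g₁ hp.symm
  have hvY : Φ'.v Y = H.tgt g₁ := by
    rw [hv, ← ht]; exact Φ.act_typed p₀ g₂ (by rw [hs, hp])
  obtain ⟨u, hu, hr, hsep⟩ := exists_sep Φ'.act_typed (Φ'.conn hG) (hvX.trans hvY.symm) hns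
  rw [hvX] at hu hr
  set S : Set G.V := {y | run Φ'.act y u = run Φ'.act X u} with hS
  have hXS : X ∈ S := rfl
  have hYS : Y ∉ S := fun h => hsep (Eq.symm h)
  have h1 := class_zero Φ' hG (I := H.src g₁) hu hr (by rw [hv]; exact hf) (by rw [hv]; exact hf')
    hvX c
  rw [sum_excess] at h1
  have h2 : ∑ y ∈ Finset.univ.filter (fun y => Φ.v y = H.tgt g₁ ∧ y ∈ S),
      excess Φ (H.src g₁) (H.tgt g₁) c μ μ' y = 0 := by
    refine Finset.sum_eq_zero fun y hy => ?_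
    rw [Finset.mem_filter] at hy
    exact hz y hy.2.1
  rw [sum_excess] at h2
  rw [hv, ← h2, ← sub_eq_zero, ← Finset.sum_sub_distrib] at h1
  have hA : ∀ (Ψ : RightResolver G H) (g : H.E),
      ∑ᶠ x ∈ {x | Φ.v x = H.src g₁ ∧ Ψ.act x g ∈ S}, share Φ.v μ x =
        ∑ x, if Φ.v x = H.src g₁ ∧ Ψ.act x g ∈ S then share Φ.v μ x else 0 := by
    intro Ψ g
    rw [fsum, Finset.sum_filter]
  have hd : ∀ g, (∑ᶠ x ∈ {x | Φ.v x = H.src g₁ ∧ Φ'.act x g ∈ S}, share Φ.v μ x) -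
      (∑ᶠ x ∈ {x | Φ.v x = H.src g₁ ∧ Φ.act x g ∈ S}, share Φ.v μ x) =
      (if Φ'.act p₀ g ∈ S then share Φ.v μ p₀ else 0) -
        (if Φ.act p₀ g ∈ S then share Φ.v μ p₀ else 0) := by
    intro g
    rw [hA, hA, ← Finset.sum_sub_distrib, Finset.sum_eq_single p₀]
    · simp only [hp, true_and]
    · intro x _ hx
      have hx' : Φ'.act x g = Φ.act x g := by
        rw [hact, flip_of_notMem (by simpa using hx)]
      simp only [hx', sub_self]
    · intro h
      exact absurd (Finset.mem_univ _) h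
  have ha1 : Φ'.act p₀ g₁ = Y := by rw [hact, flip_left (Set.mem_singleton _)]
  have ha2 : Φ'.act p₀ g₂ = X := by rw [hact, flip_right (Set.mem_singleton _)]
  rw [Finset.sum_eq_add_of_mem g₁ g₂ (Finset.mem_filter.2 ⟨Finset.mem_univ _, rfl, rfl⟩)
    (Finset.mem_filter.2 ⟨Finset.mem_univ _, hs, ht⟩) h12 (fun g _ hg => by
      have hg' : Φ'.act p₀ g = Φ.act p₀ g := by rw [hact, flip_other hg.1 hg.2]
      rw [← mul_sub, sub_sub_sub_cancel_right, hd]
      simp only [hg', sub_self, mul_zero])] at h1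
  rw [← mul_sub, ← mul_sub, sub_sub_sub_cancel_right, sub_sub_sub_cancel_right, hd, hd, ha1, ha2,
    if_neg hYS, if_pos hXS] at h1
  have hpos := share_pos' hf p₀
  have h3 : (c g₂ - c g₁) * share Φ.v μ p₀ = 0 := by linarith
  rcases mul_eq_zero.1 h3 with h4 | h4
  · exact hc (sub_eq_zero.1 h4).symm
  · exact hpos.ne' h4

end Pool.Agent.H33.Exc
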