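import Pool.Agent.H33.Exc.Comb

/-!
# Bunchy synchronizing factors from unsplittable combinations of letters
-/

set_option autoImplicit false
set_option linter.unusedSectionVars false
set_option linter.deprecated false

namespace Pool.Agent.H33.Exc

open Pool.Agent.H75.Bunchy Pool.Agent.H26.Bunchy Pool.Agent.H35.Sel Pool.Agent.H33.TP
open scoped Classical

noncomputable local instance (G : Graph) : Fintype G.V := Fintype.ofFinite _
noncomputable local instance (G : Graph) : Fintype G.E := Fintype.ofFinite _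

/-- The condition on a pair `(I, J)` of vertices of `H` for a right resolver `Φ`: the local
condition `LocalGood3`, or some combination of the letters has an unsplittable excess (`Comb`), or
the selection of one letter is `Unobstructed`. -/
def CombPair {G H : Graph} (Φ : RightResolver G H) (I J : H.V) : Prop :=
  LocalGood3 Φ.v I J ∨ Comb Φ I J ∨
    ∃ e : H.E, H.src e = I ∧ H.tgt e = J ∧ Unobstructed Φ.v I J (fun x => Φ.act x e)

/-- the same with vanishing excess -/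
def CombPair₀ {G H : Graph} (Φ : RightResolver G H) (I J : H.V) : Prop :=
  LocalGood3 Φ.v I J ∨ CombZero Φ I J ∨
    ∃ e : H.E, H.src e = I ∧ H.tgt e = J ∧ Unobstructed Φ.v I J (fun x => Φ.act x e)

variable {G H : Graph}

lemma CombZero.comb {Φ : RightResolver G H} {I J : H.V} (h : CombZero Φ I J) : Comb Φ I J := by
  obtain ⟨c, pr, pr', μ, μ', hc, hf, hf', h⟩ := h
  exact ⟨c, pr, pr', μ, μ', hc, hf, hf', fun _ _ _ _ _ _ => Or.inl fun y hy _ => h y hy⟩

/-- a flip of a pair which becomes stable changes no letter in the quotient -/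
lemma flip_all (Φ Φ' : RightResolver G H) {g₁ g₂ : H.E} {p₀ : G.V}
    (hact : Φ'.act = flip g₁ g₂ {p₀} Φ.act)
    (hst : Stable H.src H.tgt Φ'.v Φ'.act (Φ.act p₀ g₁) (Φ.act p₀ g₂)) (x : G.V) (g : H.E) :
    Φ'.proj.v (Φ'.act x g) = Φ'.proj.v (Φ.act x g) := by
  have hproj := proj_eq Φ' hst
  by_cases hx : x = p₀
  · subst hx
    by_cases h1 : g = g₁
    · subst h1
      rw [hact, flip_left (Set.mem_singleton _)]
      exact hproj.symm
    · by_cases h2 : g = g₂
      · subst h2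
        rw [hact, flip_right (Set.mem_singleton _)]
        exact hproj
      · rw [hact, flip_other h1 h2]
  · rw [hact, flip_of_notMem (by simpa using hx)]

lemma CombPair₀.desc (Φ Φ' : RightResolver G H) (hv : Φ'.v = Φ.v) {I J : H.V}
    (h : CombPair₀ Φ I J) (hact : ∀ x g, H.src g = I → H.tgt g = J →
      Φ'.proj.v (Φ'.act x g) = Φ'.proj.v (Φ.act x g)) : CombPair₀ Φ'.desc I J := by
  rcases h with h | h | ⟨e, rfl, rfl, h⟩
  · exact Or.inl (h.desc hv)
  · exact Or.inr (Or.inl (h.desc Φ Φ' hv fun x g _ => hact x g))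
  · exact Or.inr (Or.inr ⟨e, rfl, rfl, h.desc Φ Φ' hv fun x _ => hact x e rfl rfl⟩)

/-- the step of the induction for colourings without stable pair -/
lemma comb_step₀ (Φ : RightResolver G H) (hG : G.StronglyConnected)
    (hgood : ∀ I J, 2 ≤ H.mult I J → CombPair₀ Φ I J) {p₀ : G.V} {g g' : H.E}
    (hsg : H.src g = Φ.v p₀) (hsg' : H.src g' = H.src g) (htg' : H.tgt g' = H.tgt g)
    (hne : Φ.act p₀ g ≠ Φ.act p₀ g') (hmult : 2 ≤ H.mult (H.src g) (H.tgt g)) :
    ∃ Φ' : RightResolver G H, Φ'.v = Φ.v ∧ ¬ NoStable H.src H.tgt Φ'.v Φ'.act ∧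
      ∀ I J, 2 ≤ H.mult I J → CombPair₀ Φ'.desc I J := by
  rcases hgood _ _ hmult with h3 | ⟨c, pr, pr', μ, μ', hc, hf, hf', hz⟩ | ⟨e, hes, het, hun⟩
  · obtain ⟨Φ', hv, hst, hact⟩ := local_step3 Φ hG hsg hsg' htg' hne h3
    refine ⟨Φ', hv, hst, fun I J hIJ => ?_⟩
    by_cases hIJ' : I = H.src g ∧ J = H.tgt g
    · obtain ⟨rfl, rfl⟩ := hIJ'
      exact Or.inl (h3.desc hv)
    · refine (hgood I J hIJ).desc Φ Φ' hv fun x f h1 h2 => ?_
      rw [hact x f (by rw [h1, h2]; exact hIJ')]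
  · obtain ⟨g₁, g₂, s1, t1, s2, t2, hc', hne'⟩ := exists_two (Φ := Φ) hc ⟨rfl, rfl⟩
      ⟨hsg', htg'⟩ hne
    obtain ⟨Φ', hv, hact⟩ := Φ.exists_flip (e1 := g₁) (e2 := g₂) (by rw [s1, s2]) (by rw [t1, t2])
      {p₀}
    have hst := stable_flip_comb Φ hG (p₀ := p₀) (by rw [s1, hsg]) (by rw [s1, s2])
      (by rw [t1, t2]) hf hf' hc' (by rw [s1, t1]; exact hz) hne' Φ' hv hact
    exact ⟨Φ', hv, fun hno => hne' (hno _ _ hst), fun I J hIJ =>
      (hgood I J hIJ).desc Φ Φ' hv fun x f _ _ => flip_all Φ Φ' hact hst x f⟩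
  · obtain ⟨f, hfs, hft, hf⟩ : ∃ f, H.src f = H.src e ∧ H.tgt f = H.tgt e ∧
        Φ.act p₀ e ≠ Φ.act p₀ f := by
      by_cases h : Φ.act p₀ e = Φ.act p₀ g
      · exact ⟨g', by rw [hsg', hes], by rw [htg', het], by rw [h]; exact hne⟩
      · exact ⟨g, hes.symm, het.symm, h⟩
    obtain ⟨Φ', hv, hact⟩ := Φ.exists_flip hfs.symm hft.symm {p₀}
    have hp₀ : Φ.v p₀ = H.src e := by rw [hes, hsg]
    have hstab := stable_flip Φ hG hp₀ hfs hft (by rw [hes, het]; exact hun) hf Φ' hv hact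
    exact ⟨Φ', hv, fun hno => hf (hno _ _ hstab), fun I J hIJ =>
      (hgood I J hIJ).desc Φ Φ' hv fun x f _ _ => flip_all Φ Φ' hact hstab x f⟩

/-- the step of the induction -/
lemma comb_step (Φ : RightResolver G H) (hG : G.StronglyConnected)
    (hgood : ∀ I J, 2 ≤ H.mult I J → CombPair Φ I J) {p₀ : G.V} {g g' : H.E}
    (hsg : H.src g = Φ.v p₀) (hsg' : H.src g' = H.src g) (htg' : H.tgt g' = H.tgt g)
    (hne : Φ.act p₀ g ≠ Φ.act p₀ g') (hmult : 2 ≤ H.mult (H.src g) (H.tgt g)) :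
    ∃ Φ' : RightResolver G H, Φ'.v = Φ.v ∧ ¬ NoStable H.src H.tgt Φ'.v Φ'.act ∧
      ∀ I J, 2 ≤ H.mult I J → CombPair Φ'.desc I J := by
  by_cases hno : NoStable H.src H.tgt Φ.v Φ.act
  · obtain ⟨Φ', hv, hst, hg⟩ := comb_step₀ Φ hG (fun I J hIJ => by
      rcases hgood I J hIJ with h | h | h
      · exact Or.inl h
      · exact Or.inr (Or.inl (h.zero Φ hG hno))
      · exact Or.inr (Or.inr h)) hsg hsg' htg' hne hmult
    refine ⟨Φ', hv, hst, fun I J hIJ => ?_⟩
    rcases hg I J hIJ with h | h | h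
    · exact Or.inl h
    · exact Or.inr (Or.inl h.comb)
    · exact Or.inr (Or.inr h)
  · refine ⟨Φ, rfl, hno, fun I J hIJ => ?_⟩
    rcases hgood I J hIJ with h | h | ⟨e, rfl, rfl, h⟩
    · exact Or.inl (h.desc rfl)
    · exact Or.inr (Or.inl h.desc)
    · exact Or.inr (Or.inr ⟨e, rfl, rfl, h.desc Φ Φ rfl fun _ _ => rfl⟩)

/-- relative form -/
theorem relative_comb (H : Graph) : ∀ (n : ℕ) (G : Graph),
    Nat.card G.V = n → G.StronglyConnected → ∀ Φ : RightResolver G H,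
    (∀ I J, 2 ≤ H.mult I J → CombPair Φ I J) →
    ∃ (Q : Graph) (Θ : RightResolver Q H) (Ψ : RightResolver G Q), Ψ.Synchronizing ∧
      (∀ p, Θ.v (Ψ.v p) = Φ.v p) ∧
      ∀ c : Q.V, Set.BijOn Θ.v (Q.Followers c) (H.Followers (Θ.v c)) := by
  intro n
  induction n using Nat.strong_induction_on with
  | _ n ih =>
  intro G hn hG Φ hgood
  by_cases hb : ∀ c : G.V, Set.BijOn Φ.v (G.Followers c) (H.Followers (Φ.v c))
  · exact ⟨G, Φ, RightResolver.id G, RightResolver.id_synchronizing G, fun _ => rfl, hb⟩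
  push Not at hb
  obtain ⟨p₀, hp₀⟩ := hb
  have hmaps : Set.MapsTo Φ.v (G.Followers p₀) (H.Followers (Φ.v p₀)) := by
    intro q hq; rw [followers_image]; exact ⟨q, hq, rfl⟩
  have hsurj : Set.SurjOn Φ.v (G.Followers p₀) (H.Followers (Φ.v p₀)) := by
    rw [followers_image]; exact Set.surjOn_image _ _
  have hninj : ¬ Set.InjOn Φ.v (G.Followers p₀) := fun h => hp₀ ⟨hmaps, h, hsurj⟩
  unfold Set.InjOn at hninj
  push Not at hninj
  obtain ⟨q, ⟨f, hf1, hf2⟩, q', ⟨f', hf1', hf2'⟩, hqq, hne⟩ := hninj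
  have hsg : H.src (Φ.e f) = Φ.v p₀ := by rw [Φ.src_comm, hf1]
  have hsg' : H.src (Φ.e f') = H.src (Φ.e f) := by rw [Φ.src_comm, Φ.src_comm, hf1, hf1']
  have htg' : H.tgt (Φ.e f') = H.tgt (Φ.e f) := by
    rw [Φ.tgt_comm, Φ.tgt_comm, hf2, hf2', hqq]
  have hact : Φ.act p₀ (Φ.e f) ≠ Φ.act p₀ (Φ.e f') := by
    have h1 := Φ.act_eq f
    have h2 := Φ.act_eq f'
    rw [hf1] at h1
    rw [hf1'] at h2
    rw [h1, h2, hf2, hf2']; exact hne
  have hmult : 2 ≤ H.mult (H.src (Φ.e f)) (H.tgt (Φ.e f)) := by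
    have h12 : Φ.e f ≠ Φ.e f' := fun h => hact (by rw [h])
    rw [← Set.ncard_pair h12]
    refine Set.ncard_le_ncard ?_ (Set.toFinite _)
    rintro x (rfl | rfl)
    · exact ⟨rfl, rfl⟩
    · exact ⟨hsg', htg'⟩
  obtain ⟨Φ', hv, hst, hgood'⟩ := comb_step Φ hG hgood hsg hsg' htg' hact hmult
  have hlt := card_quot_lt Φ' hst
  rw [hn] at hlt
  obtain ⟨Q, Θ, Ψ, hΨ, hcomm, hbij⟩ := ih _ hlt Φ'.quot rfl (StronglyConnected.map Φ'.proj hG)
    Φ'.desc hgood'
  refine ⟨Q, Θ, RightResolver.comp Ψ Φ'.proj,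
    RightResolver.Synchronizing.comp hΨ Φ'.proj_synchronizing, fun p => ?_, hbij⟩
  rw [RightResolver.comp_v, hcomm, Φ'.desc_proj_v, hv]

/-- **Main theorem.** -/
theorem main_comb (G B : Graph) (hG : G.StronglyConnected) (hB : IsBunchy B)
    (Φ : RightResolver G B) (hgood : ∀ I J, 2 ≤ B.mult I J → CombPair Φ I J) :
    ∃ H : Graph, IsBunchy H ∧ ∃ Ψ : RightResolver G H, Ψ.Synchronizing := by
  obtain ⟨Q, Θ, Ψ, hΨ, _, hbij⟩ := relative_comb B _ G rfl hG Φ hgood
  obtain ⟨M, hM, Λ, hΛ⟩ := hB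
  refine ⟨Q, ⟨M, hM, RightResolver.comp Λ Θ, fun I => ?_⟩, Ψ, hΨ⟩
  exact (hΛ (Θ.v I)).comp (hbij I)

/-! ### Special cases -/

section Single
variable (Φ : RightResolver G H) {I J : H.V} {e : H.E} (he : H.src e = I ∧ H.tgt e = J)
  (μ μ' : G.V → ℝ)
include he

lemma sum_excess_single (X : Set G.V) :
    ∑ y ∈ Finset.univ.filter (fun y => Φ.v y = J ∧ y ∈ X),
        excess Φ I J (fun g => if g = e then 1 else 0) μ μ' y =
      (∑ᶠ x ∈ {x | Φ.v x = I ∧ Φ.act x e ∈ X}, share Φ.v μ x) -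
        ∑ᶠ y ∈ {y | Φ.v y = J ∧ y ∈ X}, share Φ.v μ' y := by
  rw [sum_excess, Finset.sum_eq_single e]
  · simp
  · intro g _ hg
    rw [if_neg hg, zero_mul]
  · intro h
    exact (h (Finset.mem_filter.2 ⟨Finset.mem_univ e, he⟩)).elim

lemma excess_single (y : G.V) :
    excess Φ I J (fun g => if g = e then 1 else 0) μ μ' y =
      (∑ᶠ x ∈ {x | Φ.v x = I ∧ Φ.act x e = y}, share Φ.v μ x) - share Φ.v μ' y := by
  unfold excess
  rw [fsum, Finset.sum_eq_single e]
  · simp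
  · intro g _ hg
    show (if g = e then (1 : ℝ) else 0) * _ = 0
    rw [if_neg hg, zero_mul]
  · intro h
    exact (h (Finset.mem_filter.2 ⟨Finset.mem_univ e, he⟩)).elim

end Single

/-- The condition `SelPair3` (and so the condition `SelPair` of the earlier result) implies
`CombPair` for a suitable right resolver with the same vertex map. -/
theorem combPair_of_selPair3 (Φ : RightResolver G H)
    (hgood : ∀ I J, 2 ≤ H.mult I J → SelPair3 Φ.v I J) :
    ∃ Φ₁ : RightResolver G H, Φ₁.v = Φ.v ∧ ∀ I J, 2 ≤ H.mult I J → CombPair Φ₁ I J := by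
  set T : H.V → H.V → Prop := fun I J => 2 ≤ H.mult I J ∧ ¬ LocalGood3 Φ.v I J with hT
  have hsel : ∀ I J, ∃ s : G.V → G.V, T I J → (∀ x, Φ.v x = I → s x ∈ FollowersOver Φ.v x J) ∧
      (Unsplit Φ.v I J s ∨ Unobstructed Φ.v I J s) := by
    intro I J
    by_cases h : T I J
    · rcases hgood I J h.1 with h1 | ⟨s, h1, h2⟩
      · exact absurd h1 h.2
      · exact ⟨s, fun _ => ⟨h1, h2⟩⟩
    · exact ⟨id, fun h' => absurd h' h⟩
  choose s hs using hsel
  by_cases hE : Nonempty H.E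
  swap
  · refine ⟨Φ, rfl, fun I J hIJ => ?_⟩
    rw [not_nonempty_iff] at hE
    have h0 : H.mult I J = 0 := by
      unfold Graph.mult
      rw [Set.ncard_eq_zero (Set.toFinite _)]
      ext x
      exact hE.elim x
    omega
  obtain ⟨g₀⟩ := hE
  have hedge : ∀ I J, ∃ e e', T I J → (H.src e = I ∧ H.tgt e = J) ∧
      (H.src e' = I ∧ H.tgt e' = J) ∧ e ≠ e' := by
    intro I J
    by_cases h : T I J
    · have h2 : 1 < {g : H.E | H.src g = I ∧ H.tgt g = J}.ncard := lt_of_lt_of_le one_lt_two h.1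
      obtain ⟨x, hx, y, hy, hxy⟩ := (Set.one_lt_ncard_iff_nontrivial).1 h2
      exact ⟨x, y, fun _ => ⟨hx, hy, hxy⟩⟩
    · exact ⟨g₀, g₀, fun h' => absurd h' h⟩
  choose e₀ e₁ he₀ using hedge
  obtain ⟨Φ₁, hv₁, hact₁⟩ := exists_letters Φ T e₀ (fun I J h => (he₀ I J h).1) s
    (fun I J h => (hs I J h).1)
  refine ⟨Φ₁, hv₁, fun I J hIJ => ?_⟩
  by_cases h : LocalGood3 Φ.v I J
  · left; rw [hv₁]; exact h
  · right
    have hTIJ : T I J := ⟨hIJ, h⟩
    obtain ⟨h1, h2, h12⟩ := he₀ I J hTIJ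
    rcases (hs I J hTIJ).2 with hu | hu
    · left
      obtain ⟨pr, pr', μ, μ', hf, hf', hX⟩ := hu
      have hset : ∀ P : G.V → Prop, {x | Φ.v x = I ∧ P (Φ₁.act x (e₀ I J))} =
          {x | Φ.v x = I ∧ P (s I J x)} := by
        intro P
        ext x
        simp only [Set.mem_setOf_eq]
        constructor
        · rintro ⟨h3, h4⟩
          rw [hact₁ I J hTIJ x h3] at h4
          exact ⟨h3, h4⟩
        · rintro ⟨h3, h4⟩
          refine ⟨h3, ?_⟩
          rw [hact₁ I J hTIJ x h3]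
          exact h4
      refine comb_of_sets Φ₁ (c := fun g => if g = e₀ I J then 1 else 0)
        ⟨e₀ I J, e₁ I J, h1.1, h1.2, h2.1, h2.2, ?_⟩ (pr := pr) (pr' := pr') (μ := μ) (μ' := μ')
        (by rw [hv₁]; exact hf) (by rw [hv₁]; exact hf') (fun X hXX => ?_)
      · show (if e₀ I J = e₀ I J then (1 : ℝ) else 0) ≠ (if e₁ I J = e₀ I J then (1 : ℝ) else 0)
        rw [if_pos rfl, if_neg h12.symm]
        exact one_ne_zero
      · rw [fsum, sum_excess_single Φ₁ h1 μ μ' X, sub_eq_zero, hv₁, hset (fun y => y ∈ X)] at hXX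
        rcases hX X hXX with h3 | h3
        · left
          intro y hy hyJ
          rw [excess_single Φ₁ h1 μ μ' y, sub_eq_zero, hv₁, hset (fun z => z = y)]
          exact h3 y hy (by rw [← hv₁]; exact hyJ)
        · right
          intro y hy hyJ
          rw [excess_single Φ₁ h1 μ μ' y, sub_eq_zero, hv₁, hset (fun z => z = y)]
          exact h3 y hy (by rw [← hv₁]; exact hyJ)
    · right
      refine ⟨e₀ I J, h1.1, h1.2, ?_⟩
      rw [hv₁]
      intro ρ c c' i j hρ hij hc hc' hq x hx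
      show c' x = c (Φ₁.act x (e₀ I J))
      rw [hact₁ I J hTIJ x hx]
      exact hu ρ c c' i j hρ hij hc hc' (fun x hx => by
        have := hq x hx
        simp only at this
        rwa [hact₁ I J hTIJ x hx] at this) x hx

/-- An excess with at most one positive or at most one negative value is unsplittable. -/
theorem comb_of_one (Φ : RightResolver G H) {I J : H.V} {c : H.E → ℝ}
    (hc : ∃ g g', H.src g = I ∧ H.tgt g = J ∧ H.src g' = I ∧ H.tgt g' = J ∧ c g ≠ c g')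
    {pr pr' : H.V → H.V → ℝ} {μ μ' : G.V → ℝ} (hf : FairWeights Φ.v pr μ)
    (hf' : FairWeights Φ.v pr' μ') (u : G.V)
    (h : (∀ y, Φ.v y = J → y ≠ u → excess Φ I J c μ μ' y ≤ 0) ∨
      (∀ y, Φ.v y = J → y ≠ u → 0 ≤ excess Φ I J c μ μ' y)) :
    Comb Φ I J := by
  refine comb_of_sets Φ hc hf hf' fun X hX => ?_
  rw [fsum] at hX
  obtain ⟨p, hp⟩ := Φ.v_surj I
  obtain ⟨q, hq⟩ := Φ.v_surj J
  -- the total excess
  have htot : ∑ y ∈ Finset.univ.filter (fun y => Φ.v y = J ∧ y ∈ Set.univ),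
      excess Φ I J c μ μ' y = 0 := by
    have hsum := sum_excess Φ I J c μ μ' Set.univ
    rw [show (0 : ℝ) = ∑ g ∈ Finset.univ.filter (fun g => H.src g = I ∧ H.tgt g = J), (0 : ℝ) by
      simp]
    refine Eq.trans ?_ (hsum.trans (Finset.sum_congr rfl fun g _ => ?_))
    · refine Finset.sum_congr ?_ fun _ _ => rfl
      ext y; simp
    have h2 : ∑ᶠ x ∈ {x | Φ.v x = I ∧ Φ.act x g ∈ Set.univ}, share Φ.v μ x = 1 := by
      have hset : {x | Φ.v x = I ∧ Φ.act x g ∈ Set.univ} = {x | Φ.v x = Φ.v p} := by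
        ext x; simp [hp]
      rw [hset, fsum]
      exact sum_share_fibre hf.mu_pos p
    have h3 : ∑ᶠ y ∈ {y | Φ.v y = J ∧ y ∈ Set.univ}, share Φ.v μ' y = 1 := by
      have hset : {y | Φ.v y = J ∧ y ∈ Set.univ} = {x | Φ.v x = Φ.v q} := by
        ext x; simp [hq]
      rw [hset, fsum]
      exact sum_share_fibre hf'.mu_pos q
    rw [h2, h3, sub_self, mul_zero]
  have hcompl : ∑ y ∈ Finset.univ.filter (fun y => Φ.v y = J ∧ y ∉ X),
      excess Φ I J c μ μ' y = 0 := by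
    have h1 := Finset.sum_filter_add_sum_filter_not (Finset.univ.filter (fun y => Φ.v y = J))
      (fun y => y ∈ X) (fun y => excess Φ I J c μ μ' y)
    have h2 : ∑ y ∈ Finset.univ.filter (fun y => Φ.v y = J), excess Φ I J c μ μ' y = 0 := by
      rw [← htot]
      refine Finset.sum_congr ?_ fun _ _ => rfl
      ext y; simp
    rw [Finset.filter_filter, Finset.filter_filter, h2] at h1
    have h3 : ∑ y ∈ Finset.univ.filter (fun y => Φ.v y = J ∧ y ∈ X), excess Φ I J c μ μ' y = 0 := by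
      convert hX
    rw [h3, zero_add] at h1
    exact h1
  -- a set on which the excess has one sign
  have key : ∀ P : G.V → Prop, (∀ y, P y → y ≠ u) →
      ∑ y ∈ Finset.univ.filter (fun y => Φ.v y = J ∧ P y), excess Φ I J c μ μ' y = 0 →
      ∀ y, P y → Φ.v y = J → excess Φ I J c μ μ' y = 0 := by
    intro P hP hsum y hy hyJ
    have hmem : y ∈ Finset.univ.filter (fun y => Φ.v y = J ∧ P y) := by
      rw [Finset.mem_filter]; exact ⟨Finset.mem_univ _, hyJ, hy⟩
    rcases h with h | h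
    · exact (Finset.sum_eq_zero_iff_of_nonpos (fun z hz => by
        rw [Finset.mem_filter] at hz
        exact h z hz.2.1 (hP z hz.2.2))).1 hsum y hmem
    · exact (Finset.sum_eq_zero_iff_of_nonneg (fun z hz => by
        rw [Finset.mem_filter] at hz
        exact h z hz.2.1 (hP z hz.2.2))).1 hsum y hmem
  by_cases hu : u ∈ X
  · right
    intro y hy hyJ
    exact key (fun y => y ∉ X) (fun y hy h => hy (h ▸ hu)) (by convert hcompl) y hy hyJ
  · left
    intro y hy hyJ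
    exact key (fun y => y ∈ X) (fun y hy h => hu (h ▸ hy)) (by convert hX) y hy hyJ

end Pool.Agent.H33.Exc
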