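import Pool.Agent.H33.Exc.Split
import Pool.Agent.H33.TP.Main

/-!
# Bunchy synchronizing factors from unsplittable selections of followers
-/

set_option autoImplicit false
set_option linter.unusedSectionVars false
set_option linter.deprecated false

namespace Pool.Agent.H33.Exc

open Pool.Agent.H75.Bunchy Pool.Agent.H26.Bunchy Pool.Agent.H35.Sel Pool.Agent.H33.TP
open scoped Classical

noncomputable local instance (G : Graph) : Fintype G.V := Fintype.ofFinite _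
noncomputable local instance (G : Graph) : Fintype G.E := Fintype.ofFinite _

variable {G H : Graph}

/-- There are three pairs of vertices such that both members of one of them are followers over `J`
of each full vertex over `I`, or some vertex over `I` has a common follower over `J` with every
full vertex. -/
def LocalGood3 {G B : Graph} (v : G.V → B.V) (I J : B.V) : Prop :=
  (∃ y y' : Fin 3 → G.V, ∀ x ∈ Full v I J, ∃ i, y i ≠ y' i ∧ y i ∈ FollowersOver v x J ∧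
    y' i ∈ FollowersOver v x J) ∨
  ∃ x, v x = I ∧ ∀ y ∈ Full v I J, (FollowersOver v x J ∩ FollowersOver v y J).Nonempty

/-- three pairs: a recolouring of the bundle with a stable pair -/
lemma pairs_step (Φ : RightResolver G H) (hG : G.StronglyConnected) {p₀ : G.V} {g g' : H.E}
    (hsg : H.src g = Φ.v p₀) (hsg' : H.src g' = H.src g) (htg' : H.tgt g' = H.tgt g)
    (hne : Φ.act p₀ g ≠ Φ.act p₀ g')
    (hgood : ∃ y y' : Fin 3 → G.V, ∀ x ∈ Full Φ.v (H.src g) (H.tgt g), ∃ i, y i ≠ y' i ∧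
      y i ∈ FollowersOver Φ.v x (H.tgt g) ∧ y' i ∈ FollowersOver Φ.v x (H.tgt g)) :
    ∃ Φ' : RightResolver G H, Φ'.v = Φ.v ∧ ¬ NoStable H.src H.tgt Φ'.v Φ'.act ∧
      ∀ x f, ¬ (H.src f = H.src g ∧ H.tgt f = H.tgt g) → Φ'.act x f = Φ.act x f := by
  have h12 : g ≠ g' := fun h => hne (by rw [h])
  by_cases hfull : (Full Φ.v (H.src g) (H.tgt g)).Nonempty
  swap
  · refine three_step Φ hG hsg hsg' htg' hne ?_
    rw [Set.not_nonempty_iff_eq_empty.1 hfull, Set.ncard_empty]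
    omega
  obtain ⟨y, y', hgood⟩ := hgood
  have hgood' : ∀ x : G.V, ∃ i, x ∈ Full Φ.v (H.src g) (H.tgt g) → y i ≠ y' i ∧
      y i ∈ FollowersOver Φ.v x (H.tgt g) ∧ y' i ∈ FollowersOver Φ.v x (H.tgt g) := by
    intro x
    by_cases hx : x ∈ Full Φ.v (H.src g) (H.tgt g)
    · obtain ⟨i, hi⟩ := hgood x hx
      exact ⟨i, fun _ => hi⟩
    · exact ⟨0, fun h => absurd h hx⟩
  choose κ hκ using hgood'
  obtain ⟨Φ₁, hv₁, hΦ₁⟩ := Φ.exists_recolor (fun p π =>
    (∀ f, ¬ (H.src f = H.src g ∧ H.tgt f = H.tgt g) → π f = f) ∧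
    (Φ.v p = H.src g → p ∉ Full Φ.v (H.src g) (H.tgt g) → Φ.act p (π g) = Φ.act p (π g')) ∧
    (p ∈ Full Φ.v (H.src g) (H.tgt g) → Φ.act p (π g) = y (κ p) ∧
      Φ.act p (π g') = y' (κ p))) (by
      intro p
      by_cases hp : Φ.v p = H.src g ∧ p ∉ Full Φ.v (H.src g) (H.tgt g)
      · obtain ⟨π, h1, h2, h3⟩ := exists_perm_same Φ hp.1 hp.2 h12 rfl rfl hsg' htg'
        exact ⟨π, h1, h2, fun _ _ => h3, fun h => absurd h hp.2⟩
      by_cases hpf : p ∈ Full Φ.v (H.src g) (H.tgt g)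
      · obtain ⟨k1, k2, k3⟩ := hκ p hpf
        rw [Φ.mem_followersOver] at k2 k3
        obtain ⟨f₁, a1, b1, c1⟩ := k2
        obtain ⟨f₂, a2, b2, c2⟩ := k3
        have hf : f₁ ≠ f₂ := fun h => k1 (by rw [← c1, ← c2, h])
        have hvp : Φ.v p = H.src g := hpf.1
        obtain ⟨π, h1, h2, h3, h4⟩ := exists_perm2 H h12 hf hsg'.symm htg'.symm
          (by rw [a1, hvp]) (by rw [b1]) (by rw [a2, hvp]) (by rw [b2])
        exact ⟨π, h1, h2, fun h1 h2 => absurd ⟨h1, h2⟩ hp,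
          fun _ => ⟨by rw [h3, c1], by rw [h4, c2]⟩⟩
      · exact ⟨1, fun _ => ⟨rfl, rfl⟩, fun _ _ => rfl, fun h1 h2 => absurd ⟨h1, h2⟩ hp,
          fun h => absurd h hpf⟩)
  have hD : Diff H.src Φ₁.v Φ₁.act g g' = Full Φ₁.v (H.src g) (H.tgt g) := by
    refine diff_eq_full Φ₁ h12 rfl rfl hsg' htg' ?_
    intro p hp hpf
    obtain ⟨π, _, hQ, hπ⟩ := hΦ₁ p
    rw [hπ, hπ]
    exact hQ.2.1 (by rw [← hv₁]; exact hp) (by rw [← hv₁]; exact hpf)
  have hact : ∀ p ∈ Full Φ.v (H.src g) (H.tgt g), Φ₁.act p g = y (κ p) ∧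
      Φ₁.act p g' = y' (κ p) := by
    intro p hp
    obtain ⟨π, _, hQ, hπ⟩ := hΦ₁ p
    rw [hπ, hπ]
    exact hQ.2.2 hp
  obtain ⟨δ, hδ⟩ := three_types hsg'.symm htg'.symm Φ₁.act_typed (Φ₁.conn hG)
    (by rw [hD, hv₁]; exact hfull) κ (by
      rw [hD, hv₁]
      intro p hp q hq hpq
      rw [(hact p hp).1, (hact p hp).2, (hact q hq).1, (hact q hq).2, hpq]
      exact ⟨rfl, rfl⟩)
  obtain ⟨Φ', hv', hact'⟩ := Φ₁.exists_flip hsg'.symm htg'.symm δ
  refine ⟨Φ', by rw [hv', hv₁], by rw [hv', hact']; exact hδ, fun x f hf => ?_⟩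
  rw [hact', flip_other (by rintro rfl; exact hf ⟨rfl, rfl⟩)
    (by rintro rfl; exact hf ⟨hsg', htg'⟩)]
  obtain ⟨π, _, hQ, hπ⟩ := hΦ₁ x
  rw [hπ, hQ.1 f hf]

lemma local_step3 (Φ : RightResolver G H) (hG : G.StronglyConnected) {p₀ : G.V} {g g' : H.E}
    (hsg : H.src g = Φ.v p₀) (hsg' : H.src g' = H.src g) (htg' : H.tgt g' = H.tgt g)
    (hne : Φ.act p₀ g ≠ Φ.act p₀ g') (h : LocalGood3 Φ.v (H.src g) (H.tgt g)) :
    ∃ Φ' : RightResolver G H, Φ'.v = Φ.v ∧ ¬ NoStable H.src H.tgt Φ'.v Φ'.act ∧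
      ∀ x f, ¬ (H.src f = H.src g ∧ H.tgt f = H.tgt g) → Φ'.act x f = Φ.act x f := by
  rcases h with h | h
  · exact pairs_step Φ hG hsg hsg' htg' hne h
  · exact local_step Φ hG hsg hsg' htg' hne (Or.inr h)

lemma LocalGood3.desc {Φ Φ' : RightResolver G H} (hv : Φ'.v = Φ.v) {I J : H.V}
    (h : LocalGood3 Φ.v I J) : LocalGood3 Φ'.desc.v I J := by
  have hpv : ∀ p, Φ'.desc.v (Φ'.proj.v p) = Φ.v p := fun p => by rw [Φ'.desc_proj_v, hv]
  rcases h with ⟨y, y', h⟩ | h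
  · left
    refine ⟨fun i => Φ'.proj.v (y i), fun i => Φ'.proj.v (y' i), fun x hx => ?_⟩
    obtain ⟨p, rfl⟩ := Φ'.proj.v_surj x
    obtain ⟨i, h1, h2, h3⟩ := h p (full_subset Φ'.proj Φ'.desc.v Φ hpv I J hx)
    exact ⟨i, pair_image Φ'.proj Φ'.desc.v Φ hpv I J hx h1 h2 h3⟩
  · right
    obtain ⟨x, hx, h⟩ := h
    refine ⟨Φ'.proj.v x, by rw [hpv, hx], fun q hq => ?_⟩
    obtain ⟨p, rfl⟩ := Φ'.proj.v_surj q
    obtain ⟨K, hK1, hK2⟩ := h p (full_subset Φ'.proj Φ'.desc.v Φ hpv I J hq)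
    refine ⟨Φ'.proj.v K, ?_, ?_⟩
    · rw [followersOver_image Φ'.proj Φ'.desc.v Φ.v hpv]
      exact ⟨K, hK1, rfl⟩
    · rw [followersOver_image Φ'.proj Φ'.desc.v Φ.v hpv]
      exact ⟨K, hK2, rfl⟩

/-- the condition of the induction for colourings without stable pair -/
def GoodSel3 (e₀ : H.V → H.V → H.E) (Φ : RightResolver G H) : Prop :=
  ∀ I J, 2 ≤ H.mult I J → LocalGood3 Φ.v I J ∨
    (H.src (e₀ I J) = I ∧ H.tgt (e₀ I J) = J ∧
      Unobstructed Φ.v (H.src (e₀ I J)) (H.tgt (e₀ I J)) (fun x => Φ.act x (e₀ I J)))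

/-- the condition of the induction -/
def GoodExc (e₀ : H.V → H.V → H.E) (Φ : RightResolver G H) : Prop :=
  ∀ I J, 2 ≤ H.mult I J → LocalGood3 Φ.v I J ∨
    (H.src (e₀ I J) = I ∧ H.tgt (e₀ I J) = J ∧
      (Unsplit Φ.v (H.src (e₀ I J)) (H.tgt (e₀ I J)) (fun x => Φ.act x (e₀ I J)) ∨
      Unobstructed Φ.v (H.src (e₀ I J)) (H.tgt (e₀ I J)) (fun x => Φ.act x (e₀ I J))))

/-- the step of the induction for colourings without stable pair -/
lemma sel_step3 {e₀ : H.V → H.V → H.E} (Φ : RightResolver G H) (hG : G.StronglyConnected)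
    (hgood : GoodSel3 e₀ Φ) {p₀ : G.V} {g g' : H.E} (hsg : H.src g = Φ.v p₀)
    (hsg' : H.src g' = H.src g) (htg' : H.tgt g' = H.tgt g) (hne : Φ.act p₀ g ≠ Φ.act p₀ g')
    (hmult : 2 ≤ H.mult (H.src g) (H.tgt g)) :
    ∃ Φ' : RightResolver G H, Φ'.v = Φ.v ∧ ¬ NoStable H.src H.tgt Φ'.v Φ'.act ∧
      GoodSel3 e₀ Φ'.desc := by
  rcases hgood _ _ hmult with h3 | ⟨hes, het, hun⟩
  · obtain ⟨Φ', hv, hst, hact⟩ := local_step3 Φ hG hsg hsg' htg' hne h3
    refine ⟨Φ', hv, hst, fun I J hIJ => ?_⟩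
    by_cases hIJ' : I = H.src g ∧ J = H.tgt g
    · obtain ⟨rfl, rfl⟩ := hIJ'
      exact Or.inl (h3.desc hv)
    · rcases hgood I J hIJ with h | ⟨h1, h2, h⟩
      · exact Or.inl (h.desc hv)
      · refine Or.inr ⟨h1, h2, h.desc Φ Φ' hv fun x _ => ?_⟩
        rw [hact x _ (by rw [h1, h2]; exact hIJ')]
  · -- one of the two letters differs from the selected one
    set e := e₀ (H.src g) (H.tgt g) with he
    obtain ⟨f, hfs, hft, hf⟩ : ∃ f, H.src f = H.src e ∧ H.tgt f = H.tgt e ∧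
        Φ.act p₀ e ≠ Φ.act p₀ f := by
      by_cases h : Φ.act p₀ e = Φ.act p₀ g
      · exact ⟨g', by rw [hsg', hes], by rw [htg', het], by rw [h]; exact hne⟩
      · exact ⟨g, hes.symm, het.symm, h⟩
    obtain ⟨Φ', hv, hact⟩ := Φ.exists_flip hfs.symm hft.symm {p₀}
    have hp₀ : Φ.v p₀ = H.src e := by rw [hes, hsg]
    have hstab := stable_flip Φ hG hp₀ hfs hft hun hf Φ' hv hact
    have hproj := proj_eq Φ' hstab
    refine ⟨Φ', hv, fun hno => hf (hno _ _ hstab), fun I J hIJ => ?_⟩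
    rcases hgood I J hIJ with h | ⟨h1, h2, h⟩
    · exact Or.inl (h.desc hv)
    · refine Or.inr ⟨h1, h2, h.desc Φ Φ' hv fun x _ => ?_⟩
      by_cases hx : x = p₀
      · subst hx
        by_cases hIJ' : I = H.src g ∧ J = H.tgt g
        · obtain ⟨rfl, rfl⟩ := hIJ'
          rw [← he, hact, flip_left (Set.mem_singleton _)]
          exact hproj.symm
        · have hne1 : e₀ I J ≠ e := by
            intro h3
            exact hIJ' ⟨h1.symm.trans ((congrArg H.src h3).trans hes),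
              h2.symm.trans ((congrArg H.tgt h3).trans het)⟩
          have hne2 : e₀ I J ≠ f := by
            intro h3
            exact hIJ' ⟨h1.symm.trans ((congrArg H.src h3).trans (hfs.trans hes)),
              h2.symm.trans ((congrArg H.tgt h3).trans (hft.trans het))⟩
          rw [hact, flip_other hne1 hne2]
      · rw [hact, flip_of_notMem (by simpa using hx)]

/-- the step of the induction -/
lemma exc_step {e₀ : H.V → H.V → H.E} (Φ : RightResolver G H) (hG : G.StronglyConnected)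
    (hgood : GoodExc e₀ Φ) {p₀ : G.V} {g g' : H.E} (hsg : H.src g = Φ.v p₀)
    (hsg' : H.src g' = H.src g) (htg' : H.tgt g' = H.tgt g) (hne : Φ.act p₀ g ≠ Φ.act p₀ g')
    (hmult : 2 ≤ H.mult (H.src g) (H.tgt g)) :
    ∃ Φ' : RightResolver G H, Φ'.v = Φ.v ∧ ¬ NoStable H.src H.tgt Φ'.v Φ'.act ∧
      GoodExc e₀ Φ'.desc := by
  by_cases hno : NoStable H.src H.tgt Φ.v Φ.act
  · -- all unsplittable selections preserve the shares
    have h3 : GoodSel3 e₀ Φ := by
      intro I J hIJ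
      rcases hgood I J hIJ with h | ⟨h1, h2, h | h⟩
      · exact Or.inl h
      · obtain ⟨pr, pr', μ, μ', hf, hf', hp⟩ := h.preserves Φ hG hno
        exact Or.inr ⟨h1, h2, unobstructed_of_preserves₂ hf hf'
          (fun x hx => Φ.act_typed x _ hx.symm) hp⟩
      · exact Or.inr ⟨h1, h2, h⟩
    obtain ⟨Φ', hv, hst, hg⟩ := sel_step3 Φ hG h3 hsg hsg' htg' hne hmult
    refine ⟨Φ', hv, hst, fun I J hIJ => ?_⟩
    rcases hg I J hIJ with h | ⟨h1, h2, h⟩
    · exact Or.inl h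
    · exact Or.inr ⟨h1, h2, Or.inr h⟩
  · -- the quotient by the stability of the colouring
    refine ⟨Φ, rfl, hno, fun I J hIJ => ?_⟩
    rcases hgood I J hIJ with h | ⟨h1, h2, h | h⟩
    · exact Or.inl (h.desc rfl)
    · exact Or.inr ⟨h1, h2, Or.inl h.desc⟩
    · exact Or.inr ⟨h1, h2, Or.inr (h.desc Φ Φ rfl fun _ _ => rfl)⟩

/-- relative form -/
theorem relative_exc (H : Graph) (e₀ : H.V → H.V → H.E) : ∀ (n : ℕ) (G : Graph),
    Nat.card G.V = n → G.StronglyConnected → ∀ Φ : RightResolver G H, GoodExc e₀ Φ →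
    ∃ (Q : Graph) (Θ : RightResolver Q H) (Ψ : RightResolver G Q), Ψ.Synchronizing ∧
      (∀ p, Θ.v (Ψ.v p) = Φ.v p) ∧
      ∀ c : Q.V, Set.BijOn Θ.v (Q.Followers c) (H.Followers (Θ.v c)) := by
  intro n
  induction n using Nat.strong_induction_on with
  | _ n ih =>
  intro G hn hG Φ hgood
  by_cases hb : ∀ c : G.V, Set.BijOn Φ.v (G.Followers c) (H.Followers (Φ.v c))
  · exact ⟨G, Φ, RightResolver.id G, RightResolver.id_synchronizing G, fun _ => rfl, hb⟩
  push Not at hb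
  obtain ⟨p₀, hp₀⟩ := hb
  have hmaps : Set.MapsTo Φ.v (G.Followers p₀) (H.Followers (Φ.v p₀)) := by
    intro q hq; rw [followers_image]; exact ⟨q, hq, rfl⟩
  have hsurj : Set.SurjOn Φ.v (G.Followers p₀) (H.Followers (Φ.v p₀)) := by
    rw [followers_image]; exact Set.surjOn_image _ _
  have hninj : ¬ Set.InjOn Φ.v (G.Followers p₀) := fun h => hp₀ ⟨hmaps, h, hsurj⟩
  unfold Set.InjOn at hninj
  push Not at hninj
  obtain ⟨q, ⟨f, hf1, hf2⟩, q', ⟨f', hf1', hf2'⟩, hqq, hne⟩ := hninj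
  have hsg : H.src (Φ.e f) = Φ.v p₀ := by rw [Φ.src_comm, hf1]
  have hsg' : H.src (Φ.e f') = H.src (Φ.e f) := by rw [Φ.src_comm, Φ.src_comm, hf1, hf1']
  have htg' : H.tgt (Φ.e f') = H.tgt (Φ.e f) := by
    rw [Φ.tgt_comm, Φ.tgt_comm, hf2, hf2', hqq]
  have hact : Φ.act p₀ (Φ.e f) ≠ Φ.act p₀ (Φ.e f') := by
    have h1 := Φ.act_eq f
    have h2 := Φ.act_eq f'
    rw [hf1] at h1
    rw [hf1'] at h2
    rw [h1, h2, hf2, hf2']; exact hne
  have hmult : 2 ≤ H.mult (H.src (Φ.e f)) (H.tgt (Φ.e f)) := by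
    have h12 : Φ.e f ≠ Φ.e f' := fun h => hact (by rw [h])
    rw [← Set.ncard_pair h12]
    refine Set.ncard_le_ncard ?_ (Set.toFinite _)
    rintro x (rfl | rfl)
    · exact ⟨rfl, rfl⟩
    · exact ⟨hsg', htg'⟩
  obtain ⟨Φ', hv, hst, hgood'⟩ := exc_step Φ hG hgood hsg hsg' htg' hact hmult
  have hlt := card_quot_lt Φ' hst
  rw [hn] at hlt
  obtain ⟨Q, Θ, Ψ, hΨ, hcomm, hbij⟩ := ih _ hlt Φ'.quot rfl (StronglyConnected.map Φ'.proj hG)
    Φ'.desc hgood'
  refine ⟨Q, Θ, RightResolver.comp Ψ Φ'.proj,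
    RightResolver.Synchronizing.comp hΨ Φ'.proj_synchronizing, fun p => ?_, hbij⟩
  rw [RightResolver.comp_v, hcomm, Φ'.desc_proj_v, hv]

/-- the condition on a pair of vertices of `B` joined by at least two edges -/
def SelPair3 {G B : Graph} (v : G.V → B.V) (I J : B.V) : Prop :=
  LocalGood3 v I J ∨
  ∃ s : G.V → G.V, (∀ x, v x = I → s x ∈ FollowersOver v x J) ∧
    (Unsplit v I J s ∨ Unobstructed v I J s)

theorem main_exc (G B : Graph) (hG : G.StronglyConnected) (hB : IsBunchy B)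
    (Φ : RightResolver G B) (hgood : ∀ I J, 2 ≤ B.mult I J → SelPair3 Φ.v I J) :
    ∃ H : Graph, IsBunchy H ∧ ∃ Ψ : RightResolver G H, Ψ.Synchronizing := by
  -- the pairs with a selection
  set T : B.V → B.V → Prop := fun I J => 2 ≤ B.mult I J ∧ ¬ LocalGood3 Φ.v I J with hT
  have hsel : ∀ I J, ∃ s : G.V → G.V, T I J → (∀ x, Φ.v x = I → s x ∈ FollowersOver Φ.v x J) ∧
      (Unsplit Φ.v I J s ∨ Unobstructed Φ.v I J s) := by
    intro I J
    by_cases h : T I J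
    · rcases hgood I J h.1 with h1 | ⟨s, h1, h2⟩
      · exact absurd h1 h.2
      · exact ⟨s, fun _ => ⟨h1, h2⟩⟩
    · exact ⟨id, fun h' => absurd h' h⟩
  choose s hs using hsel
  by_cases hE : Nonempty B.E
  swap
  · -- no edges
    rw [not_nonempty_iff] at hE
    refine Pool.Agent.H75.Bunchy.main G B hG hB Φ fun I J h => ?_
    have h0 : B.mult I J = 0 := by
      unfold Graph.mult
      rw [Set.ncard_eq_zero (Set.toFinite _)]
      ext x
      exact hE.elim x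
    omega
  obtain ⟨g₀⟩ := hE
  have hedge : ∀ I J, ∃ e, T I J → B.src e = I ∧ B.tgt e = J := by
    intro I J
    by_cases h : T I J
    · obtain ⟨x, hx, -⟩ := (Set.one_lt_ncard_iff_nontrivial_and_finite.1
        (lt_of_lt_of_le one_lt_two h.1)).1
      exact ⟨x, fun _ => hx⟩
    · exact ⟨g₀, fun h' => absurd h' h⟩
  choose e₀ he₀ using hedge
  obtain ⟨Φ₁, hv₁, hact₁⟩ := exists_letters Φ T e₀ he₀ s (fun I J h => (hs I J h).1)
  obtain ⟨Q, Θ, Ψ, hΨ, _, hbij⟩ := relative_exc B e₀ _ G rfl hG Φ₁ (fun I J hIJ => by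
    by_cases h : LocalGood3 Φ.v I J
    · left; rw [hv₁]; exact h
    · right
      have hTIJ : T I J := ⟨hIJ, h⟩
      obtain ⟨h1, h2⟩ := he₀ I J hTIJ
      refine ⟨h1, h2, ?_⟩
      rw [h1, h2, hv₁]
      rcases (hs I J hTIJ).2 with hu | hu
      · left
        obtain ⟨pr, pr', μ, μ', hf, hf', hX⟩ := hu
        have hset : ∀ P : G.V → Prop, {x | Φ.v x = I ∧ P (Φ₁.act x (e₀ I J))} =
            {x | Φ.v x = I ∧ P (s I J x)} := by
          intro P
          ext x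
          simp only [Set.mem_setOf_eq]
          constructor
          · rintro ⟨h3, h4⟩
            rw [hact₁ I J hTIJ x h3] at h4
            exact ⟨h3, h4⟩
          · rintro ⟨h3, h4⟩
            refine ⟨h3, ?_⟩
            rw [hact₁ I J hTIJ x h3]
            exact h4
        refine ⟨pr, pr', μ, μ', hf, hf', fun X hXX => ?_⟩
        rw [hset (fun y => y ∈ X)] at hXX
        rcases hX X hXX with h3 | h3
        · left
          intro y hy hyJ
          rw [hset (fun z => z = y)]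
          exact h3 y hy hyJ
        · right
          intro y hy hyJ
          rw [hset (fun z => z = y)]
          exact h3 y hy hyJ
      · right
        intro ρ c c' i j hρ hij hc hc' hq x hx
        show c' x = c (Φ₁.act x (e₀ I J))
        rw [hact₁ I J hTIJ x hx]
        exact hu ρ c c' i j hρ hij hc hc' (fun x hx => by
          have := hq x hx
          simp only at this
          rwa [hact₁ I J hTIJ x hx] at this) x hx)
  obtain ⟨M, hM, Λ, hΛ⟩ := hB
  refine ⟨Q, ⟨M, hM, RightResolver.comp Λ Θ, fun I => ?_⟩, Ψ, hΨ⟩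
  exact (hΛ (Θ.v I)).comp (hbij I)

/-! ### The new condition contains the old one -/

lemma localGood3_of (Φ : RightResolver G H) {I J : H.V} (hm : 2 ≤ H.mult I J)
    (h : LocalGood Φ.v I J) : LocalGood3 Φ.v I J := by
  rcases h with h | h
  swap
  · exact Or.inr h
  left
  obtain ⟨x₁, -⟩ := Φ.v_surj I
  by_cases hne : (Full Φ.v I J).Nonempty
  swap
  · exact ⟨fun _ => x₁, fun _ => x₁, fun x hx => absurd ⟨x, hx⟩ hne⟩
  obtain ⟨x₀, hx₀⟩ := hne
  set F := (Full Φ.v I J).toFinite.toFinset with hF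
  have hFm : ∀ x, x ∈ F ↔ x ∈ Full Φ.v I J := fun x => by simp [hF]
  have hFc : F.card ≤ 3 := by rw [← Set.ncard_eq_toFinset_card]; exact h
  have hf : ∀ i : Fin 3, ∃ x ∈ Full Φ.v I J, ∀ hi : (i : ℕ) < F.card,
      x = (F.equivFin.symm ⟨i, hi⟩ : G.V) := by
    intro i
    by_cases hi : (i : ℕ) < F.card
    · exact ⟨_, (hFm _).1 (F.equivFin.symm ⟨i, hi⟩).2, fun _ => rfl⟩
    · exact ⟨x₀, hx₀, fun h => absurd h hi⟩
  choose f hf1 hf2 using hf
  have hf3 : ∀ i, ∃ q : G.V × G.V, q.1 ≠ q.2 ∧ q.1 ∈ FollowersOver Φ.v (f i) J ∧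
      q.2 ∈ FollowersOver Φ.v (f i) J := by
    intro i
    have h1 : 1 < (FollowersOver Φ.v (f i) J).ncard := by rw [(hf1 i).2]; omega
    obtain ⟨y, hy, y', hy', hne⟩ := (Set.one_lt_ncard_iff_nontrivial).1 h1
    exact ⟨(y, y'), hne, hy, hy'⟩
  choose q hq using hf3
  refine ⟨fun i => (q i).1, fun i => (q i).2, fun x hx => ?_⟩
  have hxF : x ∈ F := (hFm x).2 hx
  have hlt := (F.equivFin ⟨x, hxF⟩).2
  refine ⟨⟨F.equivFin ⟨x, hxF⟩, hlt.trans_le hFc⟩, ?_⟩
  have hx' : f ⟨F.equivFin ⟨x, hxF⟩, hlt.trans_le hFc⟩ = x := by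
    rw [hf2 _ hlt]
    simp
  have := hq ⟨F.equivFin ⟨x, hxF⟩, hlt.trans_le hFc⟩
  rw [hx'] at this
  exact this

/-- a selection that preserves the shares is unsplittable -/
lemma unsplit_of_preserves {v : G.V → H.V} {I J : H.V} {s : G.V → G.V}
    {pr : H.V → H.V → ℝ} {μ : G.V → ℝ} (hf : FairWeights v pr μ)
    (hp : ∀ y, v y = J → ∑ᶠ x ∈ {x | v x = I ∧ s x = y}, share v μ x = share v μ y) :
    Unsplit v I J s :=
  ⟨pr, pr, μ, μ, hf, hf, fun _ _ => Or.inl fun y _ hy => hp y hy⟩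

/-- the condition `SelPair` of the earlier result implies `SelPair3` -/
theorem selPair3_of (Φ : RightResolver G H) {I J : H.V} (hm : 2 ≤ H.mult I J)
    (h : SelPair Φ.v I J) : SelPair3 Φ.v I J := by
  rcases h with h | ⟨s, hs, ⟨pr, μ, hf, hp⟩ | h⟩
  · exact Or.inl (localGood3_of Φ hm h)
  · exact Or.inr ⟨s, hs, Or.inl (unsplit_of_preserves hf hp)⟩
  · exact Or.inr ⟨s, hs, Or.inr h⟩

lemma sum_share_fibre {v : G.V → H.V} {μ : G.V → ℝ} (hμ : ∀ x, 0 < μ x) (p : G.V) :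
    ∑ q ∈ Finset.univ.filter (fun q => v q = v p), share v μ q = 1 := by
  rw [← sum_wt_fibre (σ := v) hμ p]
  exact Finset.sum_congr rfl fun q _ => share_eq v μ q

/-- A selection is unsplittable if, for some fair weights, the excess has at most one positive
value or at most one negative value. -/
theorem unsplit_of_one (Φ : RightResolver G H) {I J : H.V} {s : G.V → G.V}
    (hs : ∀ x, Φ.v x = I → Φ.v (s x) = J)
    {pr pr' : H.V → H.V → ℝ} {μ μ' : G.V → ℝ} (hf : FairWeights Φ.v pr μ)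
    (hf' : FairWeights Φ.v pr' μ') (u : G.V)
    (h : (∀ y, Φ.v y = J → y ≠ u →
        ∑ᶠ x ∈ {x | Φ.v x = I ∧ s x = y}, share Φ.v μ x ≤ share Φ.v μ' y) ∨
      (∀ y, Φ.v y = J → y ≠ u →
        share Φ.v μ' y ≤ ∑ᶠ x ∈ {x | Φ.v x = I ∧ s x = y}, share Φ.v μ x)) :
    Unsplit Φ.v I J s := by
  refine ⟨pr, pr', μ, μ', hf, hf', fun X hX => ?_⟩
  set A : G.V → ℝ := fun y => ∑ᶠ x ∈ {x | Φ.v x = I ∧ s x = y}, share Φ.v μ x with hA
  rw [fib_sum hs, fsum] at hX
  have hX' : ∑ y ∈ Finset.univ.filter (fun y => Φ.v y = J ∧ y ∈ X), (A y - share Φ.v μ' y) = 0 := by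
    rw [Finset.sum_sub_distrib, sub_eq_zero]
    exact hX
  -- the total excess
  obtain ⟨p, hp⟩ := Φ.v_surj I
  obtain ⟨q, hq⟩ := Φ.v_surj J
  have htot : ∑ y ∈ Finset.univ.filter (fun y => Φ.v y = J), (A y - share Φ.v μ' y) = 0 := by
    have h1 := fib_sum hs Set.univ (share Φ.v μ)
    have h2 : ∑ᶠ x ∈ {x | Φ.v x = I ∧ s x ∈ Set.univ}, share Φ.v μ x = 1 := by
      have hset : {x | Φ.v x = I ∧ s x ∈ Set.univ} = {x | Φ.v x = Φ.v p} := by
        ext x; simp [hp]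
      rw [hset, fsum]
      exact sum_share_fibre hf.mu_pos p
    have h3 : ∑ y ∈ Finset.univ.filter (fun y => Φ.v y = J), A y = 1 := by
      rw [← h2, h1]
      refine Finset.sum_congr ?_ fun _ _ => rfl
      ext y; simp
    have h4 : ∑ y ∈ Finset.univ.filter (fun y => Φ.v y = J), share Φ.v μ' y = 1 := by
      have := sum_share_fibre (v := Φ.v) hf'.mu_pos q
      rw [hq] at this
      exact this
    rw [Finset.sum_sub_distrib, h3, h4, sub_self]
  have hcompl : ∑ y ∈ Finset.univ.filter (fun y => Φ.v y = J ∧ y ∉ X),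
      (A y - share Φ.v μ' y) = 0 := by
    have h1 := Finset.sum_filter_add_sum_filter_not (Finset.univ.filter (fun y => Φ.v y = J))
      (fun y => y ∈ X) (fun y => A y - share Φ.v μ' y)
    rw [Finset.filter_filter, Finset.filter_filter, htot] at h1
    rw [hX', zero_add] at h1
    exact h1
  -- a set on which the excess has one sign
  have key : ∀ P : G.V → Prop, (∀ y, P y → y ≠ u) →
      ∑ y ∈ Finset.univ.filter (fun y => Φ.v y = J ∧ P y), (A y - share Φ.v μ' y) = 0 →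
      ∀ y, P y → Φ.v y = J → A y = share Φ.v μ' y := by
    intro P hP hsum y hy hyJ
    have hmem : y ∈ Finset.univ.filter (fun y => Φ.v y = J ∧ P y) := by
      rw [Finset.mem_filter]; exact ⟨Finset.mem_univ _, hyJ, hy⟩
    rcases h with h | h
    · have h1 := (Finset.sum_eq_zero_iff_of_nonpos (fun z hz => by
        rw [Finset.mem_filter] at hz
        exact sub_nonpos.2 (h z hz.2.1 (hP z hz.2.2)))).1 hsum y hmem
      exact sub_eq_zero.1 h1
    · have h1 := (Finset.sum_eq_zero_iff_of_nonneg (fun z hz => by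
        rw [Finset.mem_filter] at hz
        exact sub_nonneg.2 (h z hz.2.1 (hP z hz.2.2)))).1 hsum y hmem
      exact sub_eq_zero.1 h1
  by_cases hu : u ∈ X
  · right
    intro y hy hyJ
    exact key (fun y => y ∉ X) (fun y hy h => hy (h ▸ hu)) (by convert hcompl) y hy hyJ
  · left
    intro y hy hyJ
    exact key (fun y => y ∈ X) (fun y hy h => hu (h ▸ hy)) (by convert hX') y hy hyJ

end Pool.Agent.H33.Exc
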