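import Pool.Agent.H35.Sel.Main

/-!
# Unsplittable selections of followers

A selection `s` of followers over `J` of the vertices over `I` moves the shares of the vertices
over `I` to the fibre of `J`. The excess of `y` is the total share of the `x` with `s x = y` minus
the share of `y`. The kernel classes of a colouring that carries `s` have excess zero.
-/

set_option autoImplicit false
set_option linter.unusedSectionVars false
set_option linter.deprecated false

namespace Pool.Agent.H33.Exc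

open Pool.Agent.H75.Bunchy Pool.Agent.H26.Bunchy Pool.Agent.H35.Sel
open scoped Classical

noncomputable local instance (G : Graph) : Fintype G.V := Fintype.ofFinite _
noncomputable local instance (G : Graph) : Fintype G.E := Fintype.ofFinite _

/-- The selection `s` of followers over `J` of the vertices over `I` is unsplittable: for some fair
weights `μ` and `μ'` every set `X` of vertices over `J` such that the vertices over `I` selected
into `X` have (for `μ`) the same total share as `X` (for `μ'`) satisfies the following: for all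
vertices `y` over `J` in `X`, or for all vertices `y` over `J` outside `X`, the vertices `x` over
`I` with `s x = y` have the total share of `y`. -/
def Unsplit {G B : Graph} (v : G.V → B.V) (I J : B.V) (s : G.V → G.V) : Prop :=
  ∃ (pr pr' : B.V → B.V → ℝ) (μ μ' : G.V → ℝ), FairWeights v pr μ ∧ FairWeights v pr' μ' ∧
    ∀ X : Set G.V,
      ∑ᶠ x ∈ {x | v x = I ∧ s x ∈ X}, share v μ x =
        ∑ᶠ y ∈ {y | v y = J ∧ y ∈ X}, share v μ' y →
      (∀ y ∈ X, v y = J → ∑ᶠ x ∈ {x | v x = I ∧ s x = y}, share v μ x = share v μ' y) ∨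
      (∀ y, y ∉ X → v y = J → ∑ᶠ x ∈ {x | v x = I ∧ s x = y}, share v μ x = share v μ' y)

variable {G H : Graph}

lemma fib_sum {v : G.V → H.V} {I J : H.V} {s : G.V → G.V} (hs : ∀ x, v x = I → v (s x) = J)
    (X : Set G.V) (f : G.V → ℝ) :
    ∑ᶠ x ∈ {x | v x = I ∧ s x ∈ X}, f x =
      ∑ y ∈ Finset.univ.filter (fun y => v y = J ∧ y ∈ X), ∑ᶠ x ∈ {x | v x = I ∧ s x = y}, f x := by
  rw [fsum, ← Finset.sum_fiberwise_of_maps_to
    (s := Finset.univ.filter (fun x => v x = I ∧ s x ∈ X))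
    (t := Finset.univ.filter (fun y => v y = J ∧ y ∈ X)) (g := s) (by
      intro x hx
      rw [Finset.mem_filter] at hx ⊢
      exact ⟨Finset.mem_univ _, hs x hx.2.1, hx.2.2⟩)]
  refine Finset.sum_congr rfl fun y hy => ?_
  rw [Finset.mem_filter] at hy
  rw [fsum]
  refine Finset.sum_congr ?_ fun _ _ => rfl
  ext x
  simp only [Finset.mem_filter, Finset.mem_univ, true_and]
  constructor
  · rintro ⟨⟨h3, _⟩, h4⟩
    exact ⟨h3, h4⟩
  · rintro ⟨h3, h4⟩
    exact ⟨⟨h3, by rw [h4]; exact hy.2.2⟩, h4⟩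

/-- the kernel classes of words of minimal rank have excess zero -/
lemma class_eq (Φ : RightResolver G H) (hG : G.StronglyConnected) {e : H.E} {w : List H.E}
    (hw : Valid H.src H.tgt (H.tgt e) w)
    (hr : (img Φ.v Φ.act (H.tgt e) w).ncard = rank H.src H.tgt Φ.v Φ.act)
    {pr pr' : H.V → H.V → ℝ} {μ μ' : G.V → ℝ} (hf : FairWeights Φ.v pr μ)
    (hf' : FairWeights Φ.v pr' μ') {y₀ : G.V} (hy₀ : Φ.v y₀ = H.tgt e) :
    ∑ᶠ x ∈ {x | Φ.v x = H.src e ∧ Φ.act x e ∈ {y | run Φ.act y w = run Φ.act y₀ w}},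
        share Φ.v μ x =
      ∑ᶠ y ∈ {y | Φ.v y = H.tgt e ∧ y ∈ {y | run Φ.act y w = run Φ.act y₀ w}},
        share Φ.v μ' y := by
  obtain ⟨p, hp⟩ := Φ.v_surj (H.src e)
  have hr' := rank_cons Φ.act_typed (p := p) hp.symm hw hr
  have hb := balanced_word Φ hG hw hr
  have hb' := balanced_word Φ hG (J := H.src e) (u := e :: w) ⟨rfl, hw⟩ hr'
  -- a vertex over `I` in the class
  have hsub : img Φ.v Φ.act (H.src e) (e :: w) ⊆ img Φ.v Φ.act (H.tgt e) w :=
    img_append_subset Φ.act_typed (H.src e) [e] w ⟨rfl, trivial⟩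
  have heq := Set.eq_of_subset_of_ncard_le hsub (by rw [hr, hr']) (Set.toFinite _)
  obtain ⟨x₀, hx₀, hx₀'⟩ : run Φ.act y₀ w ∈ img Φ.v Φ.act (H.src e) (e :: w) := by
    rw [heq]; exact ⟨y₀, hy₀, rfl⟩
  have h1 := hb pr' μ' hf' y₀ hy₀
  have h2 := hb' pr μ hf x₀ hx₀
  have hρ : (rank H.src H.tgt Φ.v Φ.act : ℝ) ≠ 0 := by
    intro h0
    rw [h0, zero_mul] at h1
    exact zero_ne_one h1
  have hx₁ : run Φ.act (Φ.act x₀ e) w = run Φ.act y₀ w := hx₀'
  have hs1 : {x | Φ.v x = H.src e ∧ Φ.act x e ∈ {y | run Φ.act y w = run Φ.act y₀ w}} =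
      {y | Φ.v y = H.src e ∧ (fun x => code G (run Φ.act x (e :: w))) y =
        (fun x => code G (run Φ.act x (e :: w))) x₀} := by
    ext x
    simp only [Set.mem_setOf_eq, code_inj, run_cons, hx₁]
  have hs2 : {y | Φ.v y = H.tgt e ∧ y ∈ {y | run Φ.act y w = run Φ.act y₀ w}} =
      {y | Φ.v y = H.tgt e ∧ (fun x => code G (run Φ.act x w)) y =
        (fun x => code G (run Φ.act x w)) y₀} := by
    ext x
    simp only [Set.mem_setOf_eq, code_inj]
  rw [hs1, hs2]
  exact mul_left_cancel₀ hρ (h2.trans h1.symm)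

/-- If a colouring without stable pair carries an unsplittable selection, then the selection
preserves the shares. -/
lemma Unsplit.preserves (Φ : RightResolver G H) (hG : G.StronglyConnected) {e : H.E}
    (h : Unsplit Φ.v (H.src e) (H.tgt e) (fun x => Φ.act x e))
    (hno : NoStable H.src H.tgt Φ.v Φ.act) :
    ∃ (pr pr' : H.V → H.V → ℝ) (μ μ' : G.V → ℝ), FairWeights Φ.v pr μ ∧ FairWeights Φ.v pr' μ' ∧
      ∀ y, Φ.v y = H.tgt e →
        ∑ᶠ x ∈ {x | Φ.v x = H.src e ∧ Φ.act x e = y}, share Φ.v μ x = share Φ.v μ' y := by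
  obtain ⟨pr, pr', μ, μ', hf, hf', h⟩ := h
  refine ⟨pr, pr', μ, μ', hf, hf', fun y₁ hy₁ => ?_⟩
  by_contra hne
  have hs : ∀ x, Φ.v x = H.src e → Φ.v (Φ.act x e) = H.tgt e :=
    fun x hx => Φ.act_typed x e hx.symm
  -- a class of a word of minimal rank
  obtain ⟨w, hw, hr⟩ := exists_rank Φ.act_typed (Φ.conn hG) y₁
  rw [hy₁] at hw hr
  have h1 := class_eq Φ hG hw hr hf hf' hy₁
  have hmem : y₁ ∈ {y | run Φ.act y w = run Φ.act y₁ w} := rfl
  -- another vertex with nonzero excess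
  obtain ⟨y₂, hy₂, hy₁₂, hne₂⟩ : ∃ y₂, Φ.v y₂ = H.tgt e ∧ y₂ ≠ y₁ ∧
      ∑ᶠ x ∈ {x | Φ.v x = H.src e ∧ Φ.act x e = y₂}, share Φ.v μ x ≠ share Φ.v μ' y₂ := by
    by_contra hcon
    push Not at hcon
    rw [fib_sum hs, fsum] at h1
    have hm : y₁ ∈ Finset.univ.filter (fun y => Φ.v y = H.tgt e ∧
        y ∈ {y | run Φ.act y w = run Φ.act y₁ w}) := by
      rw [Finset.mem_filter]
      exact ⟨Finset.mem_univ _, hy₁, hmem⟩
    rw [← Finset.add_sum_erase _ _ hm, ← Finset.add_sum_erase _ _ hm] at h1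
    have h2 : ∑ y ∈ (Finset.univ.filter (fun y => Φ.v y = H.tgt e ∧
        y ∈ {y | run Φ.act y w = run Φ.act y₁ w})).erase y₁,
          ∑ᶠ x ∈ {x | Φ.v x = H.src e ∧ Φ.act x e = y}, share Φ.v μ x =
        ∑ y ∈ (Finset.univ.filter (fun y => Φ.v y = H.tgt e ∧
          y ∈ {y | run Φ.act y w = run Φ.act y₁ w})).erase y₁, share Φ.v μ' y := by
      refine Finset.sum_congr rfl fun y hy => ?_
      rw [Finset.mem_erase, Finset.mem_filter] at hy
      exact hcon y hy.2.2.1 hy.1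
    rw [h2] at h1
    exact hne (add_right_cancel h1)
  have hns : ¬ Stable H.src H.tgt Φ.v Φ.act y₁ y₂ := fun hst => hy₁₂ (hno _ _ hst).symm
  obtain ⟨u, hu, hru, hsep⟩ := exists_sep Φ.act_typed (Φ.conn hG) (hy₁.trans hy₂.symm) hns
  rw [hy₁] at hu hru
  have h2 := class_eq Φ hG hu hru hf hf' hy₁
  rcases h _ h2 with h3 | h3
  · exact hne (h3 y₁ rfl hy₁)
  · exact hne₂ (h3 y₂ (fun hh => hsep (Eq.symm hh)) hy₂)

/-- a selection that preserves the shares (for some fair weights over `I` and over `J`) has no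
obstruction -/
theorem unobstructed_of_preserves₂ {v : G.V → H.V} {I J : H.V} {s : G.V → G.V}
    {pr pr' : H.V → H.V → ℝ} {μ μ' : G.V → ℝ} (hf : FairWeights v pr μ)
    (hf' : FairWeights v pr' μ') (hs : ∀ x, v x = I → v (s x) = J)
    (hp : ∀ y, v y = J → ∑ᶠ x ∈ {x | v x = I ∧ s x = y}, share v μ x = share v μ' y) :
    Unobstructed v I J s := by
  intro ρ c c' i j hρ hij hc hc' h x₀ hx₀
  by_contra hne
  rcases h x₀ hx₀ with h1 | ⟨h1, h2, y₀, ⟨-, hy₀⟩, hy₀'⟩
  · exact hne h1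
  have hA := hc' pr μ hf x₀ hx₀
  have hB := hc pr' μ' hf' y₀ hy₀
  rw [fsum] at hA hB
  rw [h2] at hA
  rw [hy₀'] at hB
  have hρ' : (ρ : ℝ) ≠ 0 := by
    have : (2 : ℝ) ≤ ρ := by exact_mod_cast hρ.1
    positivity
  -- the shares of the vertices selected into the class `i`
  have hsum : ∑ x ∈ Finset.univ.filter (fun x => v x = I ∧ c (s x) = i), share v μ x =
      ∑ y ∈ Finset.univ.filter (fun y => v y = J ∧ c y = i), share v μ' y := by
    have h3 := fib_sum hs {y | c y = i} (share v μ)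
    rw [fsum] at h3
    refine h3.trans (Finset.sum_congr ?_ fun y hy => ?_)
    · ext y
      simp only [Finset.mem_filter, Set.mem_setOf_eq]
    · rw [Finset.mem_filter] at hy
      exact hp y hy.2.1
  have hlt : ∑ x ∈ Finset.univ.filter (fun x => v x = I ∧ c (s x) = i), share v μ x <
      ∑ x ∈ Finset.univ.filter (fun x => v x = I ∧ c' x = i), share v μ x := by
    refine Finset.sum_lt_sum_of_subset (i := x₀) ?_ ?_ ?_ (share_pos' hf x₀)
      fun x _ _ => (share_pos' hf x).le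
    · intro x hx
      simp only [Finset.mem_filter, Finset.mem_univ, true_and] at hx ⊢
      refine ⟨hx.1, ?_⟩
      rcases h x hx.1 with h3 | ⟨h3, _, _⟩
      · rw [h3]; exact hx.2
      · exact absurd (hx.2.symm.trans h3) hij
    · simp only [Finset.mem_filter, Finset.mem_univ, true_and]
      exact ⟨hx₀, h2⟩
    · simp only [Finset.mem_filter, Finset.mem_univ, true_and]
      rintro ⟨_, h3⟩
      exact hij (h3.symm.trans h1)
  rw [hsum] at hlt
  have h3 : (ρ : ℝ) * ∑ x ∈ Finset.univ.filter (fun x => v x = I ∧ c' x = i), share v μ x =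
      (ρ : ℝ) * ∑ y ∈ Finset.univ.filter (fun y => v y = J ∧ c y = i), share v μ' y := by
    rw [hA, hB]
  exact hlt.ne' (mul_left_cancel₀ hρ' h3)

/-- unsplittable selections pass to the quotient by the stability of the colouring that carries
them -/
lemma Unsplit.desc (Φ : RightResolver G H) {e : H.E}
    (h : Unsplit Φ.v (H.src e) (H.tgt e) (fun x => Φ.act x e)) :
    Unsplit Φ.desc.v (H.src e) (H.tgt e) (fun q => Φ.desc.act q e) := by
  obtain ⟨pr, pr', μ, μ', hf, hf', h⟩ := h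
  have hpv : ∀ p, Φ.desc.v (Φ.proj.v p) = Φ.v p := fun p => Φ.desc_proj_v p
  have hs : ∀ x, Φ.v x = H.src e → Φ.v (Φ.act x e) = H.tgt e :=
    fun x hx => Φ.act_typed x e hx.symm
  refine ⟨pr, pr', push Φ.proj μ, push Φ.proj μ', fair_push Φ.proj hpv hf,
    fair_push Φ.proj hpv hf', fun X hX => ?_⟩
  -- shares of selected sets
  have hsel : ∀ P : Φ.quot.V → Prop,
      ∑ᶠ q ∈ {q | Φ.desc.v q = H.src e ∧ P (Φ.desc.act q e)}, share Φ.desc.v (push Φ.proj μ) q =
        ∑ᶠ x ∈ {x | Φ.v x = H.src e ∧ P (Φ.proj.v (Φ.act x e))}, share Φ.v μ x := by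
    intro P
    rw [sum_share_push Φ.proj hpv μ (H.src e) (fun q => P (Φ.desc.act q e))]
    have hset : {x | Φ.v x = H.src e ∧ P (Φ.desc.act (Φ.proj.v x) e)} =
        {x | Φ.v x = H.src e ∧ P (Φ.proj.v (Φ.act x e))} := by
      ext x
      simp only [Set.mem_setOf_eq]
      constructor
      · rintro ⟨h1, h2⟩
        rw [desc_act Φ h1.symm] at h2
        exact ⟨h1, h2⟩
      · rintro ⟨h1, h2⟩
        refine ⟨h1, ?_⟩
        rw [desc_act Φ h1.symm]
        exact h2
    rw [hset]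
  -- the excess of a class
  have hone : ∀ q, Φ.desc.v q = H.tgt e →
      (∀ y, Φ.proj.v y = q → ∑ᶠ x ∈ {x | Φ.v x = H.src e ∧ Φ.act x e = y}, share Φ.v μ x =
        share Φ.v μ' y) →
      ∑ᶠ p ∈ {p | Φ.desc.v p = H.src e ∧ Φ.desc.act p e = q}, share Φ.desc.v (push Φ.proj μ) p =
        share Φ.desc.v (push Φ.proj μ') q := by
    intro q hq hy
    rw [hsel (fun p => p = q)]
    have h1 := fib_sum hs {y | Φ.proj.v y = q} (share Φ.v μ)
    have h2 := sum_share_push Φ.proj hpv μ' (H.tgt e) (fun p => p = q)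
    have h3 : ∑ᶠ c ∈ {c | Φ.desc.v c = H.tgt e ∧ c = q}, share Φ.desc.v (push Φ.proj μ') c =
        share Φ.desc.v (push Φ.proj μ') q := by
      have hset : {c | Φ.desc.v c = H.tgt e ∧ c = q} = {q} := by
        ext c
        simp only [Set.mem_setOf_eq, Set.mem_singleton_iff]
        constructor
        · exact fun h => h.2
        · rintro rfl; exact ⟨hq, rfl⟩
      rw [hset, finsum_mem_singleton]
    rw [← h3, h2]
    refine h1.trans ?_
    rw [fsum]
    refine Finset.sum_congr rfl fun y hy' => ?_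
    rw [Finset.mem_filter] at hy'
    exact hy y hy'.2.2
  have hX' : ∑ᶠ x ∈ {x | Φ.v x = H.src e ∧ Φ.act x e ∈ {y | Φ.proj.v y ∈ X}}, share Φ.v μ x =
      ∑ᶠ y ∈ {y | Φ.v y = H.tgt e ∧ y ∈ {y | Φ.proj.v y ∈ X}}, share Φ.v μ' y := by
    have h1 := hsel (fun q => q ∈ X)
    have h2 := sum_share_push Φ.proj hpv μ' (H.tgt e) (fun q => q ∈ X)
    exact h1.symm.trans (hX.trans h2)
  rcases h _ hX' with h1 | h1
  · left
    intro q hq hqJ
    refine hone q hqJ fun y hy => h1 y ?_ ?_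
    · simp only [Set.mem_setOf_eq, hy]; exact hq
    · rw [← hpv, hy, hqJ]
  · right
    intro q hq hqJ
    refine hone q hqJ fun y hy => h1 y ?_ ?_
    · simp only [Set.mem_setOf_eq, hy]; exact hq
    · rw [← hpv, hy, hqJ]

end Pool.Agent.H33.Exc
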